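import Mathlib

/-!
# MP_e44225_nt: definitions of the final statement and the Props of the modules
-/

open NumberField IsDedekindDomain
open scoped LaurentPolynomial

namespace KS6_16.VJ

/-! ## Definitions for the final statement -/

section sums
variable (L : Type) [Field L] [NumberField L]

/-- Sum over all places of `L` of a local quantity `Φ(|.|_w)`; `|.|_w` is `|σ x|` at an infinite
place (counted with multiplicity `[L_w : ℝ]`) and `N(w)^(-ord_w x)` at a finite place. -/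
noncomputable def placeSum (Φ : (L → ℝ) → ℝ) : ℝ :=
  ∑ w : InfinitePlace L, (w.mult : ℝ) * Φ (fun y => w y) + ∑ᶠ w : FinitePlace L, Φ (fun y => w y)

/-- Sum over the infinite places and the finite places above the primes in `T`. -/
noncomputable def placeSumS (T : Finset ℕ) (Φ : (L → ℝ) → ℝ) : ℝ :=
  ∑ w : InfinitePlace L, (w.mult : ℝ) * Φ (fun y => w y) +
    ∑ᶠ w ∈ {w : FinitePlace L | ∃ p ∈ T, w ((p : ℕ) : L) < 1}, Φ (fun y => w y)

end sums

section local_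
variable {E L : Type} [CommRing E] [Field L]

/-- local canonical height -/
noncomputable def locK (f : E) (G₀ Gi : Finset E) (D : E → E) (φ : E → L) (a : L → ℝ) : ℝ :=
  open Classical in
  if a (φ f) ≤ 1 then Real.log (⨆ g : G₀, a (φ (D g))) else Real.log (⨆ g : Gi, a (φ (D g)))

/-- local proximity function of `D` -/
noncomputable def locD (f : E) (Z : Finset E) (φ : E → L) (a : L → ℝ) : ℝ :=
  open Classical in
  if a (φ f) ≤ 1 then 0 else - Real.log (⨆ z : Z, a (φ z))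

end local_

/-! ## Module statements -/

/-- M1 (real pigeonhole). -/
def StM1 : Prop := ∀ T : Finset ℕ, (∀ p ∈ T, p.Prime) → T.Nonempty → ∃ A : ℝ, ∀ ε : ℝ, 0 < ε →
  ∃ w : ℚ, 0 < w ∧ w ≠ 1 ∧ |(w : ℝ) - 1| < ε ∧
    (∃ j : ℕ, ∃ a b : ℤ, ((∏ p ∈ T, p : ℕ) : ℚ) ^ j * w = a ∧ ((∏ p ∈ T, p : ℕ) : ℚ) ^ j * w⁻¹ = b) ∧
    ((T.card : ℝ) - 1) * Real.posLog (Height.logHeight₁ w) ≤ - Real.log |(w : ℝ) - 1| + A

/-- M2 (a specialised different contains the different of the residue field). -/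
def StM2 : Prop := ∀ (k : Type) [Field k] [NumberField k] (B : Type) [CommRing B]
  [Algebra k[T;T⁻¹] B] [Module.Finite k[T;T⁻¹] B] [FaithfulSMul k[T;T⁻¹] B] [IsDedekindDomain B],
  ∀ δ ∈ differentIdeal k[T;T⁻¹] B, ∃ N₀ : ℕ, 0 < N₀ ∧ ∀ N : ℕ, 0 < N → N₀ ∣ N →
  ∀ (L : Type) [Field L] [NumberField L] (K₁ : Type) [Field K₁] [NumberField K₁] [Algebra K₁ L]
    (φ : B →+* L) (u : K₁),
    φ (algebraMap k[T;T⁻¹] B (LaurentPolynomial.T 1)) = algebraMap K₁ L u →
    (∀ a : k, ∃ a' : K₁, φ (algebraMap k[T;T⁻¹] B (LaurentPolynomial.C a)) = algebraMap K₁ L a') →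
    Algebra.adjoin K₁ (Set.range φ) = ⊤ →
    (∃ j : ℕ, IsIntegral ℤ ((N : K₁) ^ j * u)) → (∃ j : ℕ, IsIntegral ℤ ((N : K₁) ^ j * u⁻¹)) →
    ∃ j : ℕ, ∃ y ∈ differentIdeal (𝓞 K₁) (𝓞 L), (y : L) = (N : L) ^ j * φ δ

/-- M3 (the `p`-part of the discriminant is bounded). -/
def StM3 : Prop := ∀ (n p : ℕ), p.Prime → ∃ e : ℕ, ∀ (L : Type) [Field L] [NumberField L],
  Module.finrank ℚ L ≤ n → ¬ ((p : ℤ) ^ (e + 1) ∣ discr L)

/-- M3b. -/
def StM3b : Prop := ∀ (L' L : Type) [Field L'] [NumberField L'] [Field L] [NumberField L]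
  [Algebra L' L], (Module.finrank L' L : ℝ) * Real.log |(discr L' : ℝ)| ≤ Real.log |(discr L : ℝ)|

/-- D: the discriminant is bounded by the part of the relative different outside `T`.
`lam w` is any upper bound: `m log N(w) ≤ lam w` whenever `𝔭_w ^ m` contains the different. -/
def StD : Prop := ∀ (n : ℕ) (T : Finset ℕ) (A₁ : ℝ), (∀ p ∈ T, p.Prime) → ∃ A : ℝ,
  ∀ (K₁ L : Type) [Field K₁] [NumberField K₁] [Field L] [NumberField L] [Algebra K₁ L],
    Module.finrank ℚ L ≤ n → Real.log |(discr K₁ : ℝ)| ≤ A₁ →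
    ∀ lam : FinitePlace L → ℝ, {w | lam w ≠ 0}.Finite → (∀ w, 0 ≤ lam w) →
    (∀ w : FinitePlace L, (∀ p ∈ T, w ((p : ℕ) : L) = 1) → ∀ m : ℕ,
      differentIdeal (𝓞 K₁) (𝓞 L) ≤ w.maximalIdeal.asIdeal ^ m →
      m * Real.log (Ideal.absNorm w.maximalIdeal.asIdeal) ≤ lam w) →
    Real.log |(discr L : ℝ)| ≤
      A + ∑ᶠ w ∈ {w : FinitePlace L | ∀ p ∈ T, w ((p : ℕ) : L) = 1}, lam w

/-- M4 (points near a given complex point). -/
def StM4 : Prop := ∀ (k : Type) [Field k] [NumberField k] (B : Type) [CommRing B]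
  [Algebra k[T;T⁻¹] B] [Module.Finite k[T;T⁻¹] B] [FaithfulSMul k[T;T⁻¹] B] [IsDedekindDomain B]
  (b : B →+* ℂ) (s : Finset B), (∀ g ∈ s, b g = 0) →
  ∃ A c ρ : ℝ, 0 < A ∧ 0 < c ∧ 0 < ρ ∧ ∀ u : ℂ,
    ‖u - b (algebraMap k[T;T⁻¹] B (LaurentPolynomial.T 1))‖ < ρ →
    ∃ φ : B →+* ℂ,
      (∀ a : k, φ (algebraMap k[T;T⁻¹] B (LaurentPolynomial.C a)) =
        b (algebraMap k[T;T⁻¹] B (LaurentPolynomial.C a))) ∧
      φ (algebraMap k[T;T⁻¹] B (LaurentPolynomial.T 1)) = u ∧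
      ∀ g ∈ s, ‖φ g‖ ≤ A * ‖u - b (algebraMap k[T;T⁻¹] B (LaurentPolynomial.T 1))‖ ^ c

/-- INV (invariance of place sums under extension of the field). `Φ` is homogeneous. -/
def StINV : Prop := ∀ (L' L : Type) [Field L'] [NumberField L'] [Field L] [NumberField L]
  [Algebra L' L] (Φ : (L' → ℝ) → ℝ),
  (∀ a : L' → ℝ, (∀ y, 0 ≤ a y) → ∀ n : ℕ, 0 < n → Φ (fun y => a y ^ n) = n * Φ a) →
  {w : FinitePlace L' | Φ (fun y => w y) ≠ 0}.Finite →
  placeSum L (fun a => Φ (fun y => a (algebraMap L' L y))) =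
      Module.finrank L' L * placeSum L' Φ ∧
  ∀ T : Finset ℕ, (∀ p ∈ T, p.Prime) →
    placeSumS L T (fun a => Φ (fun y => a (algebraMap L' L y))) =
      Module.finrank L' L * placeSumS L' T Φ

/-- Number of places above `p`. -/
def StN : Prop := ∀ (L : Type) [Field L] [NumberField L] (p : ℕ), p.Prime →
  {w : FinitePlace L | w (p : L) < 1}.Finite ∧
    {w : FinitePlace L | w (p : L) < 1}.ncard ≤ Module.finrank ℚ L

/-- The elements of `F` integral over `k[s]`. -/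
noncomputable abbrev IC (k : Type) {F : Type} [Field k] [Field F] [Algebra k F] (s : Set F) :
    Subalgebra (Algebra.adjoin k s) F :=
  integralClosure (Algebra.adjoin k s) F

/-- `z` generates the maximal ideal of the valuation ring `O`. -/
def Unif {F : Type} [Field F] (O : ValuationSubring F) (z : F) : Prop :=
  ∀ y : F, O.valuation y < 1 ↔ O.valuation y ≤ O.valuation z

/-- `O` is a place of `F / k`. -/
def IsPlace (k : Type) {F : Type} [Field k] [Field F] [Algebra k F] (O : ValuationSubring F) :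
    Prop :=
  (∀ a : k, algebraMap k F a ∈ O) ∧ O ≠ ⊤

/-- G (function field part). `K ⊆ F` function fields over `k`, `f ∈ K`, `t ∈ F` with `t, 1/t`
integral over `k[f]`, `F / K` unramified at all places where `t` is a unit. `B` is the integral
closure of `k[t, 1/t]` in `F`. -/
def StG : Prop := ∀ (k K F : Type) [Field k] [CharZero k] [Field K] [Field F] [Algebra k K]
  [Algebra K F] [Algebra k F] [IsScalarTower k K F] [FiniteDimensional K F]
  (f : K), Transcendental k f → FiniteDimensional (IntermediateField.adjoin k {f}) K →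
  ∀ (G₀ Gi : Finset K),
  (∀ g ∈ G₀, IsIntegral (Algebra.adjoin k {f}) g) →
  (∀ y : K, IsIntegral (Algebra.adjoin k {f}) y → y ∈ Algebra.adjoin k (G₀ : Set K)) →
  (∀ g ∈ Gi, IsIntegral (Algebra.adjoin k {f⁻¹}) g) →
  (∀ y : K, IsIntegral (Algebra.adjoin k {f⁻¹}) y → y ∈ Algebra.adjoin k (Gi : Set K)) →
  ∀ (t : F), Transcendental k t →
  IsIntegral (Algebra.adjoin k {algebraMap K F f}) t →
  IsIntegral (Algebra.adjoin k {algebraMap K F f}) t⁻¹ →
  (∀ O : ValuationSubring F, IsPlace k O → t ∈ O → t⁻¹ ∈ O → ∃ z : K, Unif O (algebraMap K F z)) →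
  ∀ (B : Type) [CommRing B] [IsDedekindDomain B] [Algebra k[T;T⁻¹] B]
  [Module.Finite k[T;T⁻¹] B] [FaithfulSMul k[T;T⁻¹] B] [Algebra B F] [IsFractionRing B F],
  algebraMap B F (algebraMap k[T;T⁻¹] B (LaurentPolynomial.T 1)) = t →
  (∀ a : k, algebraMap B F (algebraMap k[T;T⁻¹] B (LaurentPolynomial.C a)) = algebraMap k F a) →
  ∀ (D : Derivation k F F), D ≠ 0 →
  D t ≠ 0 ∧
  -- (I1)
  D t / t ∈ Submodule.span (IC k {algebraMap K F f})
    {y : F | ∃ δ ∈ differentIdeal k[T;T⁻¹] B, ∃ g ∈ G₀, y = algebraMap B F δ * D (algebraMap K F g)} ∧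
  -- (I2)
  D t / t ∈ Submodule.span (IC k {(algebraMap K F f)⁻¹, t, t⁻¹})
    {y : F | ∃ δ ∈ differentIdeal k[T;T⁻¹] B, ∃ g ∈ Gi, y = algebraMap B F δ * D (algebraMap K F g)} ∧
  -- (I3)
  (∀ z : K, IsIntegral (Algebra.adjoin k {f⁻¹}) z →
    (∃ n : ℕ, IsIntegral (Algebra.adjoin k {f⁻¹}) (z ^ n * f)) →
    algebraMap K F z * (D t / t) ∈ Submodule.span (IC k {(algebraMap K F f)⁻¹})
      {y : F | ∃ g ∈ Gi, y = D (algebraMap K F g)}) ∧
  -- (special point)
  ((∃ O : ValuationSubring F, IsPlace k O ∧ t ∈ O ∧ t⁻¹ ∈ O ∧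
      (algebraMap K F f ∉ O ∨ ∀ p : Polynomial k, ¬ Unif O (Polynomial.aeval t p))) →
    ∃ P : Ideal B, P.IsMaximal ∧ (differentIdeal k[T;T⁻¹] B ≤ P ∨
      ∀ z : K, IsIntegral (Algebra.adjoin k {f⁻¹}) z →
        (∃ n : ℕ, IsIntegral (Algebra.adjoin k {f⁻¹}) (z ^ n * f)) →
        ∃ x ∈ P, ∃ y : B, y ∉ P ∧ algebraMap K F z * algebraMap B F y = algebraMap B F x))

/-- FIN: the integral closure of `k[t, 1/t]` is finite. -/
def StFin : Prop := ∀ (k K F : Type) [Field k] [CharZero k] [Field K] [Field F] [Algebra k K]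
  [Algebra K F] [Algebra k F] [IsScalarTower k K F] [FiniteDimensional K F]
  (f : K), Transcendental k f → FiniteDimensional (IntermediateField.adjoin k {f}) K →
  ∀ (t : F), Transcendental k t →
  ∃ (B : Type) (_ : CommRing B) (_ : IsDedekindDomain B)
    (_ : Algebra k[T;T⁻¹] B) (_ : Module.Finite k[T;T⁻¹] B) (_ : FaithfulSMul k[T;T⁻¹] B)
    (_ : Algebra B F) (_ : IsFractionRing B F),
    algebraMap B F (algebraMap k[T;T⁻¹] B (LaurentPolynomial.T 1)) = t ∧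
    (∀ a : k, algebraMap B F (algebraMap k[T;T⁻¹] B (LaurentPolynomial.C a)) = algebraMap k F a)

end KS6_16.VJ
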