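import Mathlib
import Pool.Agent.KS6_16.VJ.Defs

/-!
# MP_e44225_nt: definitions of the final statement (tuple / place form) and Props of the modules
-/

open NumberField IsDedekindDomain
open scoped LaurentPolynomial

namespace KS6_16.VJ

section
variable {K L : Type} [Field K] [Field L]

/-- the value `g(x)` of the rational function `g` at the point `x` (`P` is the valuation ring of
the point, `φ` the reduction map onto its residue field); junk value `0` at a pole. -/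
noncomputable def ev {P : ValuationSubring K} (φ : P →+* L) (g : K) : L :=
  open Classical in if h : g ∈ P then φ ⟨g, h⟩ else 0

/-- `v_P(p_i)` is maximal (i.e. the order of `p_i` at `P` is minimal) and `p_i ≠ 0`. -/
def IsTop {n : ℕ} (P : ValuationSubring K) (p : Fin n → K) (i : Fin n) : Prop :=
  p i ≠ 0 ∧ ∀ i', P.valuation (p i') ≤ P.valuation (p i)

/-- local Weil function of the divisor `div p - div q`, where `div p = inf_i div p_i`. -/
noncomputable def weil {n m : ℕ} (p : Fin n → K) (q : Fin m → K) {P : ValuationSubring K}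
    (φ : P →+* L) (a : L → ℝ) : ℝ :=
  Real.log (⨆ j, a (ev φ (q j))) - Real.log (⨆ i, a (ev φ (p i)))

/-- all `p_i` are regular at the point and not all of them vanish there. -/
def Reg {n : ℕ} (p : Fin n → K) {P : ValuationSubring K} (φ : P →+* L) : Prop :=
  (∀ i, p i ∈ P) ∧ ∃ i, ev φ (p i) ≠ 0

end

/-- `div p - div q` is the divisor of the differential `ω` with `ω(D) = 1`: at each place `P` with
uniformiser `z` one has `ω = dz / D z`. -/
def RepCan (k : Type) {K : Type} [Field k] [Field K] [Algebra k K] (D : Derivation k K K)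
    {n m : ℕ} (p : Fin n → K) (q : Fin m → K) : Prop :=
  ∀ P : ValuationSubring K, IsPlace k P → ∀ z : K, Unif P z →
    ∃ i j, IsTop P p i ∧ IsTop P q j ∧ P.valuation (p i * D z) = P.valuation (q j)

/-- `div p - div q = ∑_{P ∈ 𝒟} P`. -/
def RepDiv (k : Type) {K : Type} [Field k] [Field K] [Algebra k K] (𝒟 : Set (ValuationSubring K))
    {n m : ℕ} (p : Fin n → K) (q : Fin m → K) : Prop :=
  ∀ P : ValuationSubring K, IsPlace k P →
    (P ∈ 𝒟 → ∀ z : K, Unif P z →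
      ∃ i j, IsTop P p i ∧ IsTop P q j ∧ P.valuation (p i) = P.valuation (z * q j)) ∧
    (P ∉ 𝒟 → ∃ i j, IsTop P p i ∧ IsTop P q j ∧ P.valuation (p i) = P.valuation (q j))

/-- The hypothesis on the cover `Y → X` (function fields `F / K`) and the function `t` on `Y`:
`t` is not constant, its zeros and poles lie over `𝒟`, and `Y → X` is unramified elsewhere. -/
def Cover (k : Type) {K F : Type} [Field k] [Field K] [Field F] [Algebra k K] [Algebra K F]
    [Algebra k F] (𝒟 : Set (ValuationSubring K)) (t : F) : Prop :=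
  Transcendental k t ∧
  ∀ O : ValuationSubring F, IsPlace k O →
    ((t ∉ O ∨ t⁻¹ ∉ O) → O.comap (algebraMap K F) ∈ 𝒟) ∧
    (t ∈ O → t⁻¹ ∈ O → ∃ z : K, Unif O (algebraMap K F z))

/-- `X - D` is not a form of `G_m`: there is a point of `Y` at which `t` is a unit and which lies
over `𝒟` or is a ramification point of `t`. -/
def Hyp (k : Type) {K F : Type} [Field k] [Field K] [Field F] [Algebra k K] [Algebra K F]
    [Algebra k F] (𝒟 : Set (ValuationSubring K)) (t : F) : Prop :=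
  ∃ O : ValuationSubring F, IsPlace k O ∧ t ∈ O ∧ t⁻¹ ∈ O ∧
    (O.comap (algebraMap K F) ∈ 𝒟 ∨ ∀ p : Polynomial k, ¬ Unif O (Polynomial.aeval t p))

/-- The final theorem. -/
def Final : Prop := ∀ (k K F : Type) [Field k] [NumberField k] [Field K] [Field F] [Algebra k K]
  [Algebra K F] [Algebra k F] [IsScalarTower k K F] [FiniteDimensional K F],
  (∃ f : K, Transcendental k f ∧ FiniteDimensional (IntermediateField.adjoin k {f}) K) →
  ∀ (𝒟 : Set (ValuationSubring K)) (t : F), Cover k 𝒟 t → Hyp k 𝒟 t →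
  ∀ (D : Derivation k K K), D ≠ 0 →
  ∀ {n₁ n₂ n₃ n₄ : ℕ} (p : Fin n₁ → K) (q : Fin n₂ → K) (p' : Fin n₃ → K) (q' : Fin n₄ → K),
  RepCan k D p q → RepDiv k 𝒟 p' q' →
  ∃ (r : ℕ) (c : ℝ) (T₀ : Finset ℕ), 0 < c ∧ ∀ T : Finset ℕ, T₀ ⊆ T → (∀ p ∈ T, p.Prime) →
  ∀ C : ℝ, C < c * T.card → ∀ {m : ℕ} (α : Fin m → K) (M : ℝ),
  {P : ValuationSubring K | IsPlace k P ∧
    ∃ (L : Type) (_ : Field L) (_ : NumberField L) (_ : Algebra k L) (φ : P →+* L),
      Function.Surjective φ ∧ (∀ a : k, ev φ (algebraMap k K a) = algebraMap k L a) ∧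
      Module.finrank k L ≤ r ∧ Reg p φ ∧ Reg q φ ∧ Reg p' φ ∧ Reg q' φ ∧
      (∀ i, α i ∈ P) ∧
      C * Real.posLog (Height.logHeight (fun i => ev φ (α i)) / Module.finrank k L) +
        Real.log |(discr L : ℝ)| / Module.finrank k L + M ≤
      placeSum L (weil p q φ) / Module.finrank k L +
        placeSumS L T (weil p' q' φ) / Module.finrank k L}.Infinite

/-- O (function field part and uniform bounds; helper77). -/
def StO : Prop := ∀ (k K F : Type) [Field k] [NumberField k] [Field K] [Field F] [Algebra k K]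
  [Algebra K F] [Algebra k F] [IsScalarTower k K F] [FiniteDimensional K F],
  (∃ f : K, Transcendental k f ∧ FiniteDimensional (IntermediateField.adjoin k {f}) K) →
  ∀ (𝒟 : Set (ValuationSubring K)) (t : F), Cover k 𝒟 t → Hyp k 𝒟 t →
  ∀ (D : Derivation k K K), D ≠ 0 →
  ∀ {n₁ n₂ n₃ n₄ : ℕ} (p : Fin n₁ → K) (q : Fin n₂ → K) (p' : Fin n₃ → K) (q' : Fin n₄ → K),
  RepCan k D p q → RepDiv k 𝒟 p' q' →
  ∀ (B : Type) [CommRing B] [IsDedekindDomain B] [Algebra k[T;T⁻¹] B]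
  [Module.Finite k[T;T⁻¹] B] [FaithfulSMul k[T;T⁻¹] B] [Algebra B F] [IsFractionRing B F],
  algebraMap B F (algebraMap k[T;T⁻¹] B (LaurentPolynomial.T 1)) = t →
  (∀ a : k, algebraMap B F (algebraMap k[T;T⁻¹] B (LaurentPolynomial.C a)) = algebraMap k F a) →
  ∃ (G : F) (Δ S : Finset B) (P : Ideal B), G ≠ 0 ∧
    (∀ δ ∈ Δ, δ ∈ differentIdeal k[T;T⁻¹] B) ∧ (∃ δ ∈ Δ, δ ≠ 0) ∧ P.IsMaximal ∧
    (∀ s ∈ S, s ∈ P) ∧ (∃ s ∈ S, s ≠ 0) ∧
    ∀ n : ℕ, ∃ N : ℕ, 0 < N ∧ ∀ R : ℝ, ∃ H : ℝ, 1 ≤ H ∧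
    ∀ (L : Type) [Field L] [NumberField L], Module.finrank ℚ L ≤ n →
    ∀ (O : ValuationSubring F) (Φ : O →+* L), IsPlace k O → t ∈ O → t⁻¹ ∈ O → G ∈ O →
    (∀ i, algebraMap K F (p i) ∈ O) → (∀ i, algebraMap K F (q i) ∈ O) →
    (∀ i, algebraMap K F (p' i) ∈ O) → (∀ i, algebraMap K F (q' i) ∈ O) →
    -- (O1)
    (∀ w : FinitePlace L,
      w (ev Φ G) * (⨆ i, w (ev Φ (algebraMap K F (p i)))) *
        (⨆ i, w (ev Φ (algebraMap K F (p' i)))) ≤
      H * ((⨆ i, w (ev Φ (algebraMap K F (q i)))) * (⨆ i, w (ev Φ (algebraMap K F (q' i)))))) ∧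
    (∀ w : InfinitePlace L,
      w (ev Φ G) * (⨆ i, w (ev Φ (algebraMap K F (p i)))) *
        (⨆ i, w (ev Φ (algebraMap K F (p' i)))) ≤
      H * ((⨆ i, w (ev Φ (algebraMap K F (q i)))) * (⨆ i, w (ev Φ (algebraMap K F (q' i)))))) ∧
    -- (O2)
    (∀ w : FinitePlace L, w (N : L) = 1 → w (ev Φ t) = 1 →
      w (ev Φ G) * (⨆ i, w (ev Φ (algebraMap K F (p i)))) ≤
      (⨆ i, w (ev Φ (algebraMap K F (q i)))) * (⨆ δ : Δ, w (ev Φ (algebraMap B F δ)))) ∧
    -- (O3)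
    (∀ w : InfinitePlace L, w (ev Φ t) ≤ R → w (ev Φ t)⁻¹ ≤ R →
      w (ev Φ G) * (⨆ i, w (ev Φ (algebraMap K F (p i)))) *
        (⨆ i, w (ev Φ (algebraMap K F (p' i)))) ≤
      H * ((⨆ i, w (ev Φ (algebraMap K F (q i)))) * (⨆ i, w (ev Φ (algebraMap K F (q' i)))) *
        (⨆ s : S, w (ev Φ (algebraMap B F s)))))

/-- O4: heights of tuples are bounded by the height of `t`. -/
def StO4 : Prop := ∀ (k F : Type) [Field k] [NumberField k] [Field F] [Algebra k F] (t : F),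
  Transcendental k t → Algebra.IsAlgebraic (IntermediateField.adjoin k {t}) F →
  ∀ {m : ℕ} (α : Fin m → F) (n : ℕ), ∃ A : ℝ, ∃ a₀ : Polynomial k, a₀ ≠ 0 ∧
    ∀ (L : Type) [Field L] [NumberField L], Module.finrank ℚ L ≤ n →
    ∀ (O : ValuationSubring F) (Φ : O →+* L), IsPlace k O → t ∈ O → (∀ i, α i ∈ O) →
    ev Φ (Polynomial.aeval t a₀) ≠ 0 →
    Height.logHeight (fun i => ev Φ (α i)) ≤ A * (1 + Height.logHeight₁ (ev Φ t))

/-- W2 (points; helper8). -/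
def StW2 : Prop := ∀ (k F : Type) [Field k] [NumberField k] [Field F] [Algebra k F] (t : F)
  (B : Type) [CommRing B] [IsDedekindDomain B] [Algebra k[T;T⁻¹] B]
  [Module.Finite k[T;T⁻¹] B] [FaithfulSMul k[T;T⁻¹] B] [Algebra B F] [IsFractionRing B F],
  algebraMap B F (algebraMap k[T;T⁻¹] B (LaurentPolynomial.T 1)) = t →
  (∀ a : k, algebraMap B F (algebraMap k[T;T⁻¹] B (LaurentPolynomial.C a)) = algebraMap k F a) →
  ∀ (P : Ideal B) (S : Finset B), P.IsMaximal → (∀ s ∈ S, s ∈ P) →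
  ∃ (K₁ : Type) (_ : Field K₁) (_ : NumberField K₁) (ι : k →+* K₁) (β : K₁) (n₀ : ℕ)
    (A c ρ : ℝ), β ≠ 0 ∧ 0 < A ∧ 0 < c ∧ 0 < ρ ∧
    ∀ Γ : Finset F, (∀ g ∈ Γ, g ≠ 0) → ∃ bad : Set ℚ, bad.Finite ∧
    ∀ w : ℚ, w ∉ bad → |(w : ℝ) - 1| < ρ →
    ∃ (L : Type) (_ : Field L) (_ : NumberField L) (_ : Algebra K₁ L) (O : ValuationSubring F)
      (Φ : O →+* L) (v : InfinitePlace L),
      Module.finrank ℚ L ≤ n₀ ∧ IsPlace k O ∧
      (∀ a : k, ev Φ (algebraMap k F a) = algebraMap K₁ L (ι a)) ∧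
      t ∈ O ∧ t⁻¹ ∈ O ∧ ev Φ t = algebraMap K₁ L (β * (w : K₁)) ∧
      (∀ x : B, algebraMap B F x ∈ O) ∧
      Algebra.adjoin K₁ (Set.range fun x : B => ev Φ (algebraMap B F x)) = ⊤ ∧
      (∀ g ∈ Γ, g ∈ O ∧ ev Φ g ≠ 0) ∧
      ∀ s ∈ S, v (ev Φ (algebraMap B F s)) ≤ A * |(w : ℝ) - 1| ^ c

end KS6_16.VJ
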