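import Mathlib
import Pool.Agent.KS6_16.VJ.Defs2

/-!
# MP_e44225_nt: Props for the final form (existence of the tuples, scope)
-/

open NumberField IsDedekindDomain

namespace KS6_16.VJ

/-- `K / k` is a function field of one variable. -/
def FunField (k K : Type) [Field k] [Field K] [Algebra k K] : Prop :=
  ∃ f : K, Transcendental k f ∧ FiniteDimensional (IntermediateField.adjoin k {f}) K

/-- EX: the tuples exist. -/
def StEX : Prop := ∀ (k K : Type) [Field k] [CharZero k] [Field K] [Algebra k K], FunField k K →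
  (∀ D : Derivation k K K, D ≠ 0 → ∃ (n m : ℕ) (p : Fin n → K) (q : Fin m → K), RepCan k D p q) ∧
  (∀ 𝒟 : Set (ValuationSubring K), 𝒟.Finite → (∀ P ∈ 𝒟, IsPlace k P) →
    ∃ (n m : ℕ) (p : Fin n → K) (q : Fin m → K), RepDiv k 𝒟 p q) ∧
  (∃ D : Derivation k K K, D ≠ 0)

/-- EC (`Y = X`): every nonconstant function `t` on `X` and every place `P₁` which is not a zero or
pole of `t`. -/
def StEC : Prop := ∀ (k K : Type) [Field k] [CharZero k] [Field K] [Algebra k K], FunField k K →
  ∀ t : K, Transcendental k t →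
  {P : ValuationSubring K | IsPlace k P ∧ (t ∉ P ∨ t⁻¹ ∉ P)}.Finite ∧
  (∃ P₁ : ValuationSubring K, IsPlace k P₁ ∧ t ∈ P₁ ∧ t⁻¹ ∈ P₁) ∧
  ∀ 𝒟 : Set (ValuationSubring K), {P | IsPlace k P ∧ (t ∉ P ∨ t⁻¹ ∉ P)} ⊆ 𝒟 →
    Cover k 𝒟 t ∧ ((∃ P₁ ∈ 𝒟, IsPlace k P₁ ∧ t ∈ P₁ ∧ t⁻¹ ∈ P₁) → Hyp k 𝒟 t)

/-- U1: constant field extensions are unramified. -/
def StU1 : Prop := ∀ (k K F : Type) [Field k] [CharZero k] [Field K] [Field F] [Algebra k K]
  [Algebra K F] [Algebra k F] [IsScalarTower k K F] [FiniteDimensional K F], FunField k K →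
  ∀ e : F, IsAlgebraic k e → IntermediateField.adjoin K {e} = ⊤ →
  ∀ O : ValuationSubring F, IsPlace k O → ∃ z : K, Unif O (algebraMap K F z)

/-- U2: quadratic extensions by a square root of a function with even orders are unramified. -/
def StU2 : Prop := ∀ (k K F : Type) [Field k] [CharZero k] [Field K] [Field F] [Algebra k K]
  [Algebra K F] [Algebra k F] [IsScalarTower k K F] [FiniteDimensional K F], FunField k K →
  ∀ (x : K) (s : F), s ^ 2 = algebraMap K F x → IntermediateField.adjoin K {s} = ⊤ →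
  ∀ O : ValuationSubring F, IsPlace k O →
  (∃ z : K, O.valuation (algebraMap K F x) = O.valuation (algebraMap K F z) ^ 2) →
  ∃ z : K, Unif O (algebraMap K F z)

/-- EH: curves with a map to `y² = g(x)`, `g` separable of odd degree `≥ 3` (all elliptic curves,
all odd hyperelliptic curves), and every `𝒟` which contains the poles of `x`. -/
def StEH : Prop := ∀ (k K : Type) [Field k] [CharZero k] [Field K] [Algebra k K], FunField k K →
  ∀ (x y : K) (g : Polynomial k), Transcendental k x → g.Separable → Odd g.natDegree →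
  3 ≤ g.natDegree → y ^ 2 = Polynomial.aeval x g →
  ∀ 𝒟 : Set (ValuationSubring K), (∀ P, IsPlace k P → x ∉ P → P ∈ 𝒟) →
  ∃ (F : Type) (_ : Field F) (_ : Algebra K F) (_ : Algebra k F) (_ : IsScalarTower k K F)
    (_ : FiniteDimensional K F) (t : F), Cover k 𝒟 t ∧ Hyp k 𝒟 t

end KS6_16.VJ
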