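import Mathlib
import Pool.Agent.KS6_16.VJ.Defs2

/-!
# MP_e44225_nt: sums over the places of a number field
-/

open NumberField IsDedekindDomain

namespace KS6_16.VJ

section
variable {L : Type} [Field L] [NumberField L]

/-- the finite places above `T` -/
def aboveT (L : Type) [Field L] [NumberField L] (T : Finset ℕ) : Set (FinitePlace L) :=
  {w : FinitePlace L | ∃ p ∈ T, w ((p : ℕ) : L) < 1}

theorem fin_one {x : L} (hx : x ≠ 0) : {w : FinitePlace L | w x ≠ 1}.Finite :=
  FinitePlace.hasFiniteMulSupport hx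

/-- the supremum of a finite tuple of values -/
noncomputable def sup' {n : ℕ} (x : Fin n → L) (a : L → ℝ) : ℝ := ⨆ i, a (x i)

theorem le_sup' {n : ℕ} (x : Fin n → L) (a : L → ℝ) (i : Fin n) : a (x i) ≤ sup' x a :=
  le_ciSup (Set.finite_range fun i => a (x i)).bddAbove i

theorem sup'_pos_inf {n : ℕ} {x : Fin n → L} (hx : ∃ i, x i ≠ 0) (w : InfinitePlace L) :
    0 < sup' x (fun y => w y) := by
  obtain ⟨i, hi⟩ := hx
  exact lt_of_lt_of_le (InfinitePlace.pos_iff.2 hi) (le_sup' x (fun y => w y) i)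

theorem sup'_pos_fin {n : ℕ} {x : Fin n → L} (hx : ∃ i, x i ≠ 0) (w : FinitePlace L) :
    0 < sup' x (fun y => w y) := by
  obtain ⟨i, hi⟩ := hx
  exact lt_of_lt_of_le (FinitePlace.pos_iff.2 hi) (le_sup' x (fun y => w y) i)

theorem fin_sup {n : ℕ} {x : Fin n → L} (hx : ∃ i, x i ≠ 0) :
    {w : FinitePlace L | sup' x (fun y => w y) ≠ 1}.Finite := by
  classical
  have h : ∀ i, {w : FinitePlace L | x i ≠ 0 ∧ w (x i) ≠ 1}.Finite := by
    intro i
    by_cases hi : x i = 0
    · convert Set.finite_empty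
      ext w
      simp [hi]
    · refine (fin_one hi).subset ?_
      rintro w ⟨_, hw⟩
      exact hw
  refine (Set.finite_iUnion h).subset ?_
  intro w hw
  by_contra hcon
  simp only [Set.mem_iUnion, Set.mem_setOf_eq, not_exists, not_and, not_not] at hcon
  apply hw
  obtain ⟨i, hi⟩ := hx
  refine le_antisymm ?_ ?_
  · haveI : Nonempty (Fin n) := ⟨i⟩
    refine ciSup_le fun j => ?_
    by_cases hj : x j = 0
    · show w (x j) ≤ 1
      rw [hj, map_zero]
      exact zero_le_one
    · exact (hcon j hj).le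
  · rw [← hcon i hi]
    exact le_sup' x (fun y => w y) i

/-- product formula -/
theorem sum_log {x : L} (hx : x ≠ 0) :
    ∑ w : InfinitePlace L, (w.mult : ℝ) * Real.log (w x) +
      ∑ᶠ w : FinitePlace L, Real.log (w x) = 0 := by
  have h := prod_abs_eq_one hx
  have h1 : ∏ᶠ w : FinitePlace L, w x = ∏ w ∈ (fin_one hx).toFinset, w x := by
    refine finprod_eq_prod_of_mulSupport_subset _ ?_
    intro w hw
    rw [Set.Finite.coe_toFinset]
    exact hw
  have h2 : ∑ᶠ w : FinitePlace L, Real.log (w x) = ∑ w ∈ (fin_one hx).toFinset, Real.log (w x) := by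
    refine finsum_eq_sum_of_support_subset _ ?_
    intro w hw
    rw [Set.Finite.coe_toFinset]
    intro h0
    apply hw
    show Real.log (w x) = 0
    rw [h0, Real.log_one]
  rw [h1] at h
  rw [h2]
  have hp : ∀ w : FinitePlace L, w x ≠ 0 := fun w => (FinitePlace.pos_iff.2 hx).ne'
  have hq : ∀ w : InfinitePlace L, w x ≠ 0 := fun w => (InfinitePlace.pos_iff.2 hx).ne'
  have h3 := congrArg Real.log h
  rw [Real.log_one, Real.log_mul (Finset.prod_ne_zero_iff.2 fun w _ => pow_ne_zero _ (hq w))
    (Finset.prod_ne_zero_iff.2 fun w _ => hp w), Real.log_prod (fun w _ => pow_ne_zero _ (hq w)),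
    Real.log_prod (fun w _ => hp w)] at h3
  simp only [Real.log_pow] at h3
  exact h3

/-- **W1.** -/
theorem w1 (T : Finset ℕ) (hTf : (aboveT L T).Finite) (κ : ℕ) (hTc : (aboveT L T).ncard ≤ κ)
    {n₁ n₂ n₃ n₄ n₅ : ℕ} (p : Fin n₁ → L) (q : Fin n₂ → L) (p' : Fin n₃ → L) (q' : Fin n₄ → L)
    (δ : Fin n₅ → L) (hp : ∃ i, p i ≠ 0) (hq : ∃ i, q i ≠ 0) (hp' : ∃ i, p' i ≠ 0)
    (hq' : ∃ i, q' i ≠ 0) (hδ : ∃ i, δ i ≠ 0) (x : L) (hx : x ≠ 0) (H E : ℝ) (hH : 1 ≤ H)
    (hE : 0 < E) (hE1 : E ≤ 1)
    (h1 : ∀ w : FinitePlace L, w x * sup' p (fun y => w y) * sup' p' (fun y => w y) ≤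
      H * (sup' q (fun y => w y) * sup' q' (fun y => w y)))
    (h1' : ∀ w : InfinitePlace L, w x * sup' p (fun y => w y) * sup' p' (fun y => w y) ≤
      H * (sup' q (fun y => w y) * sup' q' (fun y => w y)))
    (h2 : ∀ w : FinitePlace L, w ∉ aboveT L T → w x * sup' p (fun y => w y) ≤
      sup' q (fun y => w y) * sup' δ (fun y => w y))
    (v : InfinitePlace L)
    (h3 : v x * sup' p (fun y => v y) * sup' p' (fun y => v y) ≤
      H * (sup' q (fun y => v y) * sup' q' (fun y => v y) * E)) :
    - Real.log E - (Module.finrank ℚ L + κ) * Real.log H +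
      ∑ᶠ w ∈ (aboveT L T)ᶜ, - Real.log (sup' δ (fun y => w y)) ≤
    placeSum L (fun a => Real.log (sup' q a) - Real.log (sup' p a)) +
      placeSumS L T (fun a => Real.log (sup' q' a) - Real.log (sup' p' a)) := by
  classical
  have hH0 : 0 < H := by linarith
  have hlH : 0 ≤ Real.log H := Real.log_nonneg hH
  -- a common finite set of places
  set W : Finset (FinitePlace L) := hTf.toFinset ∪ (fin_sup hp).toFinset ∪ (fin_sup hq).toFinset ∪
    (fin_sup hp').toFinset ∪ (fin_sup hq').toFinset ∪ (fin_sup hδ).toFinset ∪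
    (fin_one hx).toFinset with hW
  have key : ∀ (Ψ : FinitePlace L → ℝ), (∀ w, w ∉ W → Ψ w = 0) →
      ∑ᶠ w, Ψ w = ∑ w ∈ W, Ψ w := by
    intro Ψ hΨ
    refine finsum_eq_sum_of_support_subset _ ?_
    intro w hw
    by_contra hcon
    exact hw (hΨ w hcon)
  have hWmem : ∀ w, w ∉ W → w ∉ aboveT L T ∧ sup' p (fun y => w y) = 1 ∧
      sup' q (fun y => w y) = 1 ∧ sup' p' (fun y => w y) = 1 ∧ sup' q' (fun y => w y) = 1 ∧
      sup' δ (fun y => w y) = 1 ∧ w x = 1 := by
    intro w hw
    simp only [hW, Finset.mem_union, Set.Finite.mem_toFinset, Set.mem_setOf_eq, not_or,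
      not_not] at hw
    tauto
  have e1 : placeSum L (fun a => Real.log (sup' q a) - Real.log (sup' p a)) =
      ∑ w : InfinitePlace L, (w.mult : ℝ) * (Real.log (sup' q (fun y => w y)) -
        Real.log (sup' p (fun y => w y))) +
      ∑ w ∈ W, (Real.log (sup' q (fun y => w y)) - Real.log (sup' p (fun y => w y))) := by
    rw [placeSum, key]
    intro w hw
    obtain ⟨-, a1, a2, -⟩ := hWmem w hw
    rw [a1, a2, sub_self]
  have e2 : placeSumS L T (fun a => Real.log (sup' q' a) - Real.log (sup' p' a)) =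
      ∑ w : InfinitePlace L, (w.mult : ℝ) * (Real.log (sup' q' (fun y => w y)) -
        Real.log (sup' p' (fun y => w y))) +
      ∑ w ∈ W, (if w ∈ aboveT L T then
        (Real.log (sup' q' (fun y => w y)) - Real.log (sup' p' (fun y => w y))) else 0) := by
    have : ∑ᶠ w ∈ {w : FinitePlace L | ∃ p ∈ T, w ((p : ℕ) : L) < 1},
        (Real.log (sup' q' (fun y => w y)) - Real.log (sup' p' (fun y => w y))) =
        ∑ᶠ w : FinitePlace L, (if w ∈ aboveT L T then
        (Real.log (sup' q' (fun y => w y)) - Real.log (sup' p' (fun y => w y))) else 0) := by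
      refine finsum_congr fun w => ?_
      by_cases hw : w ∈ aboveT L T
      · rw [if_pos hw]
        exact finsum_eq_if.trans (if_pos hw)
      · rw [if_neg hw]
        exact finsum_eq_if.trans (if_neg hw)
    rw [placeSumS, this, key]
    intro w hw
    exact if_neg (hWmem w hw).1
  have e3 : ∑ᶠ w ∈ (aboveT L T)ᶜ, - Real.log (sup' δ (fun y => w y)) =
      ∑ w ∈ W, (if w ∈ aboveT L T then 0 else - Real.log (sup' δ (fun y => w y))) := by
    have : ∑ᶠ w ∈ (aboveT L T)ᶜ, - Real.log (sup' δ (fun y => w y)) =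
        ∑ᶠ w : FinitePlace L, (if w ∈ aboveT L T then 0
          else - Real.log (sup' δ (fun y => w y))) := by
      refine finsum_congr fun w => ?_
      by_cases hw : w ∈ aboveT L T
      · rw [if_pos hw]
        exact finsum_eq_if.trans (if_neg (fun h => h hw))
      · rw [if_neg hw]
        exact finsum_eq_if.trans (if_pos hw)
    rw [this, key]
    intro w hw
    obtain ⟨a0, -, -, -, -, a5, -⟩ := hWmem w hw
    rw [if_neg a0, a5, Real.log_one, neg_zero]
  have e4 : ∑ w : InfinitePlace L, (w.mult : ℝ) * Real.log (w x) +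
      ∑ w ∈ W, Real.log (w x) = 0 := by
    rw [← sum_log hx, key]
    intro w hw
    rw [(hWmem w hw).2.2.2.2.2.2, Real.log_one]
  -- positivity
  have Pp := fun w : FinitePlace L => sup'_pos_fin hp w
  have Pq := fun w : FinitePlace L => sup'_pos_fin hq w
  have Pp' := fun w : FinitePlace L => sup'_pos_fin hp' w
  have Pq' := fun w : FinitePlace L => sup'_pos_fin hq' w
  have Pδ := fun w : FinitePlace L => sup'_pos_fin hδ w
  have Px := fun w : FinitePlace L => (FinitePlace.pos_iff (w := w)).2 hx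
  have Ip := fun w : InfinitePlace L => sup'_pos_inf hp w
  have Iq := fun w : InfinitePlace L => sup'_pos_inf hq w
  have Ip' := fun w : InfinitePlace L => sup'_pos_inf hp' w
  have Iq' := fun w : InfinitePlace L => sup'_pos_inf hq' w
  have Ix := fun w : InfinitePlace L => (InfinitePlace.pos_iff (w := w)).2 hx
  -- local inequalities
  have l1 : ∀ w : FinitePlace L, w ∈ aboveT L T → Real.log (w x) - Real.log H ≤
      (Real.log (sup' q (fun y => w y)) - Real.log (sup' p (fun y => w y))) +
      (Real.log (sup' q' (fun y => w y)) - Real.log (sup' p' (fun y => w y))) := by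
    intro w _
    have := Real.log_le_log (mul_pos (mul_pos (Px w) (Pp w)) (Pp' w)) (h1 w)
    rw [Real.log_mul (mul_pos (Px w) (Pp w)).ne' (Pp' w).ne', Real.log_mul (Px w).ne' (Pp w).ne',
      Real.log_mul hH0.ne' (mul_pos (Pq w) (Pq' w)).ne', Real.log_mul (Pq w).ne' (Pq' w).ne'] at this
    linarith
  have l2 : ∀ w : FinitePlace L, w ∉ aboveT L T → Real.log (w x) +
      - Real.log (sup' δ (fun y => w y)) ≤
      (Real.log (sup' q (fun y => w y)) - Real.log (sup' p (fun y => w y))) := by
    intro w hw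
    have := Real.log_le_log (mul_pos (Px w) (Pp w)) (h2 w hw)
    rw [Real.log_mul (Px w).ne' (Pp w).ne', Real.log_mul (Pq w).ne' (Pδ w).ne'] at this
    linarith
  have l3 : ∀ w : InfinitePlace L, Real.log (w x) - Real.log H ≤
      (Real.log (sup' q (fun y => w y)) - Real.log (sup' p (fun y => w y))) +
      (Real.log (sup' q' (fun y => w y)) - Real.log (sup' p' (fun y => w y))) := by
    intro w
    have := Real.log_le_log (mul_pos (mul_pos (Ix w) (Ip w)) (Ip' w)) (h1' w)
    rw [Real.log_mul (mul_pos (Ix w) (Ip w)).ne' (Ip' w).ne', Real.log_mul (Ix w).ne' (Ip w).ne',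
      Real.log_mul hH0.ne' (mul_pos (Iq w) (Iq' w)).ne', Real.log_mul (Iq w).ne' (Iq' w).ne'] at this
    linarith
  have l4 : Real.log (v x) - Real.log H - Real.log E ≤
      (Real.log (sup' q (fun y => v y)) - Real.log (sup' p (fun y => v y))) +
      (Real.log (sup' q' (fun y => v y)) - Real.log (sup' p' (fun y => v y))) := by
    have := Real.log_le_log (mul_pos (mul_pos (Ix v) (Ip v)) (Ip' v)) h3
    rw [Real.log_mul (mul_pos (Ix v) (Ip v)).ne' (Ip' v).ne', Real.log_mul (Ix v).ne' (Ip v).ne',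
      Real.log_mul hH0.ne' (mul_pos (mul_pos (Iq v) (Iq' v)) hE).ne',
      Real.log_mul (mul_pos (Iq v) (Iq' v)).ne' hE.ne', Real.log_mul (Iq v).ne' (Iq' v).ne'] at this
    linarith
  have hlE : 0 ≤ - Real.log E := by
    have := Real.log_nonpos hE.le hE1
    linarith
  -- the infinite part
  have s1 : ∑ w : InfinitePlace L, (w.mult : ℝ) * Real.log (w x) -
      (Module.finrank ℚ L) * Real.log H - Real.log E ≤
      ∑ w : InfinitePlace L, (w.mult : ℝ) * (Real.log (sup' q (fun y => w y)) -
        Real.log (sup' p (fun y => w y))) +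
      ∑ w : InfinitePlace L, (w.mult : ℝ) * (Real.log (sup' q' (fun y => w y)) -
        Real.log (sup' p' (fun y => w y))) := by
    have hm : ∑ w : InfinitePlace L, (w.mult : ℝ) = Module.finrank ℚ L := by
      exact_mod_cast InfinitePlace.sum_mult_eq (K := L)
    rw [← Finset.sum_add_distrib, ← hm, Finset.sum_mul, ← Finset.sum_sub_distrib]
    have hv : - Real.log E = ∑ w : InfinitePlace L, (if w = v then - Real.log E else 0) := by
      rw [Finset.sum_ite_eq' Finset.univ v]
      simp
    rw [sub_eq_add_neg _ (Real.log E), hv, ← Finset.sum_add_distrib]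
    refine Finset.sum_le_sum fun w _ => ?_
    have hm1 : (1 : ℝ) ≤ w.mult := by
      exact_mod_cast InfinitePlace.mult_pos
    by_cases hwv : w = v
    · rw [if_pos hwv]
      subst hwv
      nlinarith [l4, hlE]
    · rw [if_neg hwv]
      nlinarith [l3 w]
  -- the finite part
  have s2 : ∑ w ∈ W, Real.log (w x) - κ * Real.log H +
      ∑ w ∈ W, (if w ∈ aboveT L T then 0 else - Real.log (sup' δ (fun y => w y))) ≤
      ∑ w ∈ W, (Real.log (sup' q (fun y => w y)) - Real.log (sup' p (fun y => w y))) +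
      ∑ w ∈ W, (if w ∈ aboveT L T then
        (Real.log (sup' q' (fun y => w y)) - Real.log (sup' p' (fun y => w y))) else 0) := by
    have hc : ∑ w ∈ W, (if w ∈ aboveT L T then Real.log H else 0) ≤ κ * Real.log H := by
      rw [← Finset.sum_filter, Finset.sum_const, nsmul_eq_mul]
      refine mul_le_mul_of_nonneg_right ?_ hlH
      have : (W.filter (fun w => w ∈ aboveT L T)).card ≤ (aboveT L T).ncard := by
        rw [← Set.ncard_coe_finset]
        refine Set.ncard_le_ncard ?_ hTf
        intro w hw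
        exact (Finset.mem_filter.1 hw).2
      exact_mod_cast this.trans hTc
    have : ∑ w ∈ W, Real.log (w x) - ∑ w ∈ W, (if w ∈ aboveT L T then Real.log H else 0) +
      ∑ w ∈ W, (if w ∈ aboveT L T then 0 else - Real.log (sup' δ (fun y => w y))) ≤
      ∑ w ∈ W, (Real.log (sup' q (fun y => w y)) - Real.log (sup' p (fun y => w y))) +
      ∑ w ∈ W, (if w ∈ aboveT L T then
        (Real.log (sup' q' (fun y => w y)) - Real.log (sup' p' (fun y => w y))) else 0) := by
      rw [← Finset.sum_sub_distrib, ← Finset.sum_add_distrib, ← Finset.sum_add_distrib]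
      refine Finset.sum_le_sum fun w _ => ?_
      by_cases hw : w ∈ aboveT L T
      · rw [if_pos hw, if_pos hw, if_pos hw]
        linarith [l1 w hw]
      · rw [if_neg hw, if_neg hw, if_neg hw]
        linarith [l2 w hw]
    linarith
  rw [e1, e2, e3]
  nlinarith [s1, s2, e4]

end

end KS6_16.VJ
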