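import Mathlib
import Pool.Agent.KS6_8.VJ.M2
import Pool.Agent.KS6_8.VJ.DISC
import Pool.Agent.KS6_12.Disc.Bound
import Pool.Agent.KS6_16.VJ.Sum

/-!
# MP_e44225_nt: M2 for Laurent polynomials, number of places, discriminant
-/

open NumberField IsDedekindDomain
open scoped LaurentPolynomial

namespace KS6_16.VJ

instance pidLaurent (k : Type) [Field k] : IsPrincipalIdealRing k[T;T⁻¹] := by
  refine ⟨fun I => ?_⟩
  have h := IsLocalization.map_under (Submonoid.powers (Polynomial.X : Polynomial k)) k[T;T⁻¹] I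
  obtain ⟨a, ha⟩ := IsPrincipalIdealRing.principal (I.comap (algebraMap (Polynomial k) k[T;T⁻¹]))
  refine ⟨⟨algebraMap (Polynomial k) k[T;T⁻¹] a, ?_⟩⟩
  rw [← h]
  have h3 : (Ideal.under (Polynomial k) I) = Ideal.span {a} := ha
  rw [h3, Ideal.map_span, Set.image_singleton]

instance charZeroLaurent (k : Type) [Field k] [CharZero k] : CharZero k[T;T⁻¹] :=
  charZero_of_injective_algebraMap (R := k) (algebraMap k k[T;T⁻¹]).injective

theorem val_int {L : Type} [Field L] [NumberField L] (v : HeightOneSpectrum (𝓞 L)) {x : L}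
    (hx : IsIntegral ℤ x) : v.valuation L x ≤ 1 := by
  have := v.valuation_le_one (K := L) (⟨x, hx⟩ : 𝓞 L)
  exact this

theorem val_nat {L : Type} [Field L] [NumberField L] (v : HeightOneSpectrum (𝓞 L)) {M : ℕ}
    (hM : (M : 𝓞 L) ∉ v.asIdeal) : v.valuation L (M : L) = 1 := by
  have h1 : v.valuation L (algebraMap (𝓞 L) L (M : 𝓞 L)) ≤ 1 := v.valuation_le_one (K := L) (M : 𝓞 L)
  have h2 : ¬ v.valuation L (algebraMap (𝓞 L) L (M : 𝓞 L)) < 1 := by
    rw [v.valuation_lt_one_iff_mem]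
    exact hM
  rw [map_natCast (algebraMap (𝓞 L) L) M] at h1 h2
  exact le_antisymm h1 (not_lt.1 h2)

section
variable (k : Type) [Field k] [NumberField k]

theorem const_int (a : k) : ∃ M : ℕ, 0 < M ∧ ∀ (L : Type) [Field L] [NumberField L] (ev : k →+* L)
    (v : HeightOneSpectrum (𝓞 L)), (M : 𝓞 L) ∉ v.asIdeal → v.valuation L (ev a) ≤ 1 := by
  have halg : IsAlgebraic ℤ a := (IsFractionRing.isAlgebraic_iff ℤ ℚ k).2
    (Algebra.IsAlgebraic.isAlgebraic (R := ℚ) a)
  obtain ⟨y, hy0, hy⟩ := halg.exists_integral_multiple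
  refine ⟨y.natAbs, Int.natAbs_pos.2 hy0, ?_⟩
  intro L _ _ ev v hv
  have h1 : IsIntegral ℤ (ev (y • a)) := hy.map ev.toIntAlgHom
  have h2 := val_int v h1
  have h3 : ev (y • a) = (y : L) * ev a := by
    rw [zsmul_eq_mul, map_mul, map_intCast]
  rw [h3, map_mul] at h2
  have h4 : v.valuation L (y : L) = 1 := by
    rcases Int.natAbs_eq y with h | h
    · rw [h, Int.cast_natCast]
      exact val_nat v hv
    · rw [h, Int.cast_neg, Int.cast_natCast, Valuation.map_neg]
      exact val_nat v hv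
  rw [h4, one_mul] at h2
  exact h2

open Pool.Agent.KS6_8.VJ in
theorem intAt_laurent (c : k[T;T⁻¹]) :
    ∃ M : ℕ, 0 < M ∧ IntAt (LaurentPolynomial.T 1 : k[T;T⁻¹]) c M := by
  induction c using LaurentPolynomial.induction_on' with
  | add p q hp hq =>
    obtain ⟨M, hM0, hM⟩ := hp
    obtain ⟨N, hN0, hN⟩ := hq
    refine ⟨M * N, Nat.mul_pos hM0 hN0, ?_⟩
    intro L _ _ ev v hv ht
    rw [map_add]
    exact (Valuation.map_add _ _ _).trans (max_le ((hM.mono (dvd_mul_right M N)) L ev v hv ht)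
      ((hN.mono (dvd_mul_left N M)) L ev v hv ht))
  | C_mul_T n a =>
    obtain ⟨M, hM0, hM⟩ := const_int k a
    refine ⟨M, hM0, ?_⟩
    intro L _ _ ev v hv ht
    rw [map_mul, map_mul]
    have h1 : v.valuation L (ev (LaurentPolynomial.C a)) ≤ 1 :=
      hM L (ev.comp LaurentPolynomial.C) v hv
    have h2 : v.valuation L (ev (LaurentPolynomial.T n)) = 1 := by
      have hinv : ev (LaurentPolynomial.T 1) * ev (LaurentPolynomial.T (-1)) = 1 := by
        rw [← map_mul, ← LaurentPolynomial.T_add]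
        simp
      have h5 : v.valuation L (ev (LaurentPolynomial.T (-1))) = 1 := by
        have := congrArg (v.valuation L) hinv
        rw [map_mul, ht, one_mul, map_one] at this
        exact this
      rcases Int.eq_nat_or_neg n with ⟨m, rfl | rfl⟩
      · have h6 : (LaurentPolynomial.T (m : ℤ) : k[T;T⁻¹]) = LaurentPolynomial.T 1 ^ m := by
          rw [LaurentPolynomial.T_pow, mul_one]
        rw [h6, map_pow, map_pow, ht, one_pow]
      · have h6 : (LaurentPolynomial.T (-(m : ℤ)) : k[T;T⁻¹]) = LaurentPolynomial.T (-1) ^ m := by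
          rw [LaurentPolynomial.T_pow]
          congr 1
          ring
        rw [h6, map_pow, map_pow, h5, one_pow]
    rw [h2, mul_one]
    exact h1

end

open Pool.Agent.KS6_8.VJ in
/-- M2 for Laurent polynomials. -/
theorem m2L (k : Type) [Field k] [NumberField k] (B : Type) [CommRing B] [IsDedekindDomain B]
    [Algebra k[T;T⁻¹] B] [Module.Finite k[T;T⁻¹] B] [FaithfulSMul k[T;T⁻¹] B] :
    ∃ d : k[T;T⁻¹], d ≠ 0 ∧ ∀ r ∈ differentIdeal k[T;T⁻¹] B, ∃ M : ℕ, 0 < M ∧
      ∀ (K L : Type) [Field K] [NumberField K] [Field L] [NumberField L] [Algebra K L]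
        (ev : k[T;T⁻¹] →+* K) (φ : B →+* L),
        (∀ x, φ (algebraMap k[T;T⁻¹] B x) = algebraMap K L (ev x)) → ev d ≠ 0 →
        Algebra.adjoin K (Set.range φ) = ⊤ →
        ∀ v : HeightOneSpectrum (𝓞 L), (M : 𝓞 L) ∉ v.asIdeal →
          v.valuation L (algebraMap K L (ev (LaurentPolynomial.T 1))) = 1 →
        ∀ m : ℕ, v.asIdeal ^ m ∣ differentIdeal (𝓞 K) (𝓞 L) →
          v.valuation L (φ r) ≤ WithZero.exp (-(m : ℤ)) :=
  m2 (R := k[T;T⁻¹]) (A := B) (LaurentPolynomial.T 1) (intAt_laurent k)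

section
variable {L : Type} [Field L] [NumberField L]

theorem mem_iff_place (v : HeightOneSpectrum (𝓞 L)) (p : ℕ) :
    ((p : ℕ) : 𝓞 L) ∈ v.asIdeal ↔ FinitePlace.mk v (p : L) < 1 := by
  have h := FinitePlace.norm_lt_one_iff_mem L v ((p : ℕ) : 𝓞 L)
  rw [← h]
  have : FinitePlace.mk v (p : L) = ‖FinitePlace.embedding v (algebraMap (𝓞 L) L ((p : ℕ) : 𝓞 L))‖ := by
    rw [map_natCast (algebraMap (𝓞 L) L) p]
    rfl
  rw [this]

theorem above_iff (T : Finset ℕ) (w : FinitePlace L) :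
    w ∈ aboveT L T ↔ Pool.Agent.KS6_8.VJ.Above T w.maximalIdeal := by
  have h : ∀ p : ℕ, ((p : ℕ) : 𝓞 L) ∈ w.maximalIdeal.asIdeal ↔ w (p : L) < 1 := by
    intro p
    rw [mem_iff_place, FinitePlace.mk_maximalIdeal]
  constructor
  · rintro ⟨p, hp, hw⟩
    exact ⟨p, hp, (h p).2 hw⟩
  · rintro ⟨p, hp, hw⟩
    exact ⟨p, hp, (h p).1 hw⟩

/-- the places above `T` are finitely many, with a uniform bound for the number -/
theorem aboveT_finite (T : Finset ℕ) (hT : ∀ p ∈ T, p.Prime) (n : ℕ) : ∃ κ : ℕ,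
    ∀ (L : Type) [Field L] [NumberField L], Module.finrank ℚ L ≤ n →
      (aboveT L T).Finite ∧ (aboveT L T).ncard ≤ κ := by
  classical
  obtain ⟨κ, hκ⟩ := exists_nat_ge (∑ p ∈ T, n * Real.log p / Real.log 2)
  refine ⟨κ, ?_⟩
  intro L _ _ hn
  have hl2 : 0 < Real.log 2 := Real.log_pos (by norm_num)
  -- every finite subset has at most `κ` elements
  have hF : ∀ F : Finset (FinitePlace L), (∀ w ∈ F, w ∈ aboveT L T) → F.card ≤ κ := by
    intro F hF
    have h1 : F ⊆ T.biUnion (fun p => F.filter fun w => w ((p : ℕ) : L) < 1) := by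
      intro w hw
      obtain ⟨p, hp, hwp⟩ := hF w hw
      exact Finset.mem_biUnion.2 ⟨p, hp, Finset.mem_filter.2 ⟨hw, hwp⟩⟩
    have h2 : (F.card : ℝ) ≤ ∑ p ∈ T, ((F.filter fun w => w ((p : ℕ) : L) < 1).card : ℝ) := by
      exact_mod_cast (Finset.card_le_card h1).trans Finset.card_biUnion_le
    have h3 : ∀ p ∈ T, ((F.filter fun w => w ((p : ℕ) : L) < 1).card : ℝ) ≤
        n * Real.log p / Real.log 2 := by
      intro p hp
      set F' := (F.filter fun w => w ((p : ℕ) : L) < 1).image FinitePlace.maximalIdeal with hF'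
      have hinj : Function.Injective (FinitePlace.maximalIdeal (K := L)) :=
        FinitePlace.maximalIdeal_injective
      have hc : F'.card = (F.filter fun w => w ((p : ℕ) : L) < 1).card :=
        Finset.card_image_of_injective _ hinj
      have h4 := Pool.Agent.KS6_8.VJ.sum_above_le (hT p hp).ne_zero F' (by
        intro v hv
        obtain ⟨w, hw, rfl⟩ := Finset.mem_image.1 hv
        have hw2 := (Finset.mem_filter.1 hw).2
        rw [mem_iff_place, FinitePlace.mk_maximalIdeal]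
        exact hw2)
      have h5 : (F'.card : ℝ) * Real.log 2 ≤ ∑ v ∈ F', Real.log (Ideal.absNorm v.asIdeal) := by
        rw [← nsmul_eq_mul]
        refine Finset.card_nsmul_le_sum _ _ _ fun v _ => ?_
        refine Real.log_le_log (by norm_num) ?_
        have := NumberField.HeightOneSpectrum.one_lt_absNorm v
        exact_mod_cast this
      rw [le_div_iff₀ hl2, ← hc]
      refine h5.trans (h4.trans ?_)
      refine mul_le_mul_of_nonneg_right (by exact_mod_cast hn) (Real.log_nonneg ?_)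
      exact_mod_cast (hT p hp).one_lt.le
    have h6 : (F.card : ℝ) ≤ κ := h2.trans ((Finset.sum_le_sum h3).trans hκ)
    exact_mod_cast h6
  have hfin : (aboveT L T).Finite := by
    by_contra hinf
    have hinf' : (aboveT L T).Infinite := hinf
    obtain ⟨F, hFs, hFc⟩ := hinf'.exists_subset_card_eq (κ + 1)
    have := hF F (fun w hw => hFs hw)
    omega
  refine ⟨hfin, ?_⟩
  rw [Set.ncard_eq_toFinset_card _ hfin]
  exact hF _ (fun w hw => (Set.Finite.mem_toFinset hfin).1 hw)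

open Classical Pool.Agent.KS6_8.VJ in
theorem disc_fin (n : ℕ) (T : Finset ℕ) (hT : ∀ p ∈ T, p.Prime) (A₁ : ℝ) : ∃ A₂ : ℝ,
    ∀ (K L : Type) [Field K] [NumberField K] [Field L] [NumberField L] [Algebra K L],
    Module.finrank ℚ L ≤ n → Real.log |(discr K : ℝ)| ≤ A₁ →
    ∀ {m : ℕ} (ρ : Fin m → L), (∃ i, ρ i ≠ 0) →
    (∀ v : HeightOneSpectrum (𝓞 L), ¬ Above T v → ∀ m : ℕ,
      v.asIdeal ^ m ∣ differentIdeal (𝓞 K) (𝓞 L) → ∀ i, v.valuation L (ρ i) ≤ WithZero.exp (-(m : ℤ))) →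
    Real.log |(discr L : ℝ)| ≤ A₂ + ∑ᶠ w ∈ (aboveT L T)ᶜ, - Real.log (sup' ρ (fun y => w y)) := by
  set E := n * (Nat.log 2 n + 1) with hE
  refine ⟨n * |A₁| + E * (n * ∑ p ∈ T, Real.log p), ?_⟩
  intro K L _ _ _ _ _ hn hA m ρ hρ h
  obtain ⟨m, rfl⟩ : ∃ m', m = m' + 1 := by
    obtain ⟨i, -⟩ := hρ
    exact ⟨m - 1, by have := i.2; omega⟩
  have hdisc := disc_le (K := K) T (fun p hp => (hT p hp).ne_zero) ρ hρ h E (by
    rintro v ⟨p, hp, hv⟩ hdvd
    refine Pool.Agent.KS6_12.Disc.m3 n (hT p hp) L hn v hv ?_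
    refine (pow_dvd_pow _ ?_).trans hdvd
    have : Nat.log p n ≤ Nat.log 2 n := Nat.log_anti_left (by norm_num) (hT p hp).two_le
    rw [hE]
    nlinarith)
  have hfr : (Module.finrank K L : ℝ) ≤ n := by
    have h1 := Module.finrank_mul_finrank ℚ K L
    have h2 : 0 < Module.finrank ℚ K := Module.finrank_pos
    have : Module.finrank K L ≤ n := by nlinarith
    exact_mod_cast this
  have e1 : ∑ᶠ v : HeightOneSpectrum (𝓞 L), (if Above T v then 0 else
      -Real.log (⨆ i, FinitePlace.mk v (ρ i))) =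
      ∑ᶠ w ∈ (aboveT L T)ᶜ, - Real.log (sup' ρ (fun y => w y)) := by
    rw [← finsum_comp_equiv (FinitePlace.equivHeightOneSpectrum (K := L))]
    refine finsum_congr fun w => ?_
    have e2 : FinitePlace.equivHeightOneSpectrum w = w.maximalIdeal := rfl
    rw [e2, FinitePlace.mk_maximalIdeal]
    by_cases hw : w ∈ aboveT L T
    · rw [if_pos ((above_iff T w).1 hw)]
      exact (finsum_eq_if.trans (if_neg (fun h => h hw))).symm
    · rw [if_neg (fun h => hw ((above_iff T w).2 h))]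
      exact (finsum_eq_if.trans (if_pos hw)).symm
  rw [e1] at hdisc
  have hS : 0 ≤ ∑ p ∈ T, Real.log p := Finset.sum_nonneg fun p hp =>
    Real.log_nonneg (by exact_mod_cast (hT p hp).one_lt.le)
  have hn' : (Module.finrank ℚ L : ℝ) ≤ n := by exact_mod_cast hn
  have h1 : (Module.finrank K L : ℝ) * Real.log |(discr K : ℝ)| ≤ n * |A₁| :=
    (mul_le_mul_of_nonneg_left (hA.trans (le_abs_self _)) (Nat.cast_nonneg _)).trans
      (mul_le_mul_of_nonneg_right hfr (abs_nonneg _))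
  have h2 : (E : ℝ) * (Module.finrank ℚ L * ∑ p ∈ T, Real.log p) ≤
      E * (n * ∑ p ∈ T, Real.log p) :=
    mul_le_mul_of_nonneg_left (mul_le_mul_of_nonneg_right hn' hS) (Nat.cast_nonneg _)
  linarith

end

end KS6_16.VJ
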