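import Mathlib
import Pool.Agent.KS6_16.VJ.Sum

/-!
# MP_e44225_nt: the point of `X` below a point of `Y`
-/

open NumberField IsDedekindDomain

namespace KS6_16.VJ

section
variable {K L : Type} [Field K] [Field L]

theorem ev_of_mem {P : ValuationSubring K} (φ : P →+* L) {g : K} (h : g ∈ P) :
    ev φ g = φ ⟨g, h⟩ := by
  unfold ev
  rw [dif_pos h]

theorem ev_of_not_mem {P : ValuationSubring K} (φ : P →+* L) {g : K} (h : g ∉ P) :
    ev φ g = 0 := by
  unfold ev
  rw [dif_neg h]

theorem ev_mul {P : ValuationSubring K} (φ : P →+* L) {g h : K} (hg : g ∈ P) (hh : h ∈ P) :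
    ev φ (g * h) = ev φ g * ev φ h := by
  rw [ev_of_mem φ hg, ev_of_mem φ hh, ev_of_mem φ (mul_mem hg hh), ← map_mul]
  rfl

theorem ev_zero {P : ValuationSubring K} (φ : P →+* L) : ev φ (0 : K) = 0 := by
  rw [ev_of_mem φ P.zero_mem]
  exact map_zero φ

theorem ev_one {P : ValuationSubring K} (φ : P →+* L) : ev φ (1 : K) = 1 := by
  rw [ev_of_mem φ P.one_mem]
  exact map_one φ

end

section
variable {k K F : Type} [Field k] [Field K] [Field F] [Algebra k K] [Algebra K F] [Algebra k F]
  [IsScalarTower k K F]

theorem isPlace_comap [Algebra.IsIntegral K F] {O : ValuationSubring F} (hO : IsPlace k O) :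
    IsPlace k (O.comap (algebraMap K F)) := by
  refine ⟨fun a => ?_, fun htop => hO.2 ?_⟩
  · rw [ValuationSubring.mem_comap, ← IsScalarTower.algebraMap_apply]
    exact hO.1 a
  · rw [eq_top_iff]
    intro y _
    have hK : ∀ x : K, algebraMap K F x ∈ O := by
      intro x
      have : x ∈ O.comap (algebraMap K F) := by rw [htop]; trivial
      exact this
    obtain ⟨p, hp, hpy⟩ := Algebra.IsIntegral.isIntegral (R := K) y
    -- `y` is integral over `O`
    let j : K →+* O :=
      { toFun := fun x => ⟨algebraMap K F x, hK x⟩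
        map_one' := Subtype.ext (map_one _)
        map_mul' := fun a b => Subtype.ext (map_mul _ _ _)
        map_zero' := Subtype.ext (map_zero _)
        map_add' := fun a b => Subtype.ext (map_add _ _ _) }
    have h1 : IsIntegral O y := by
      refine ⟨p.map j, hp.map j, ?_⟩
      rw [Polynomial.eval₂_map]
      have : (algebraMap O F).comp j = algebraMap K F := rfl
      rw [this]
      exact hpy
    obtain ⟨z, hz⟩ := (IsIntegrallyClosed.isIntegral_iff (R := O)).1 h1
    rw [← hz]
    exact z.2

/-- the residue field of the point of `X` below a point of `Y` -/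
theorem residue [CharZero k] {L : Type} [Field L] [NumberField L] (O : ValuationSubring F) (hO : IsPlace k O)
    (Φ : O →+* L) :
    ∃ (L' : Type) (_ : Field L') (_ : NumberField L') (_ : Algebra L' L) (_ : Algebra k L')
      (φ : (O.comap (algebraMap K F)) →+* L'), Function.Surjective φ ∧
      (∀ a : k, ev φ (algebraMap k K a) = algebraMap k L' a) ∧
      (∀ g : K, algebraMap L' L (ev φ g) = ev Φ (algebraMap K F g)) := by
  set P := O.comap (algebraMap K F) with hP
  let ρ : P →+* O :=
    { toFun := fun x => ⟨algebraMap K F x, x.2⟩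
      map_one' := Subtype.ext (map_one _)
      map_mul' := fun a b => Subtype.ext (map_mul _ _ _)
      map_zero' := Subtype.ext (map_zero _)
      map_add' := fun a b => Subtype.ext (map_add _ _ _) }
  let ψ : P →+* L := Φ.comp ρ
  have hkP : ∀ a : k, algebraMap k K a ∈ P := by
    intro a
    rw [hP, ValuationSubring.mem_comap, ← IsScalarTower.algebraMap_apply]
    exact hO.1 a
  let χ : k →+* P :=
    { toFun := fun a => ⟨algebraMap k K a, hkP a⟩
      map_one' := Subtype.ext (map_one _)
      map_mul' := fun a b => Subtype.ext (map_mul _ _ _)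
      map_zero' := Subtype.ext (map_zero _)
      map_add' := fun a b => Subtype.ext (map_add _ _ _) }
  let S : Subalgebra ℚ L :=
    { ψ.range with
      algebraMap_mem' := fun r => by
        refine ⟨χ (r : k), ?_⟩
        have h := map_ratCast (ψ.comp χ) r
        rw [eq_ratCast]
        exact h }
  let L' : IntermediateField ℚ L := S.toIntermediateField fun x hx =>
    S.inv_mem_of_algebraic (x := ⟨x, hx⟩) (Algebra.IsAlgebraic.isAlgebraic x)
  have hmem : ∀ x : P, ψ x ∈ L' := fun x => ⟨x, rfl⟩
  let φ : P →+* L' := ψ.codRestrict L' hmem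
  refine ⟨L', inferInstance, inferInstance, inferInstance, (φ.comp χ).toAlgebra, φ, ?_, ?_, ?_⟩
  · rintro ⟨y, x, hx⟩
    exact ⟨x, Subtype.ext hx⟩
  · intro a
    rw [ev_of_mem φ (hkP a)]
    rfl
  · intro g
    by_cases hg : g ∈ P
    · rw [ev_of_mem φ hg, ev_of_mem Φ (show algebraMap K F g ∈ O from hg)]
      rfl
    · rw [ev_of_not_mem φ hg, ev_of_not_mem Φ (show algebraMap K F g ∉ O from hg), map_zero]

end

end KS6_16.VJ
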