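import Mathlib
import Pool.Agent.KS6_16.VJ.M2L
import Pool.Agent.KS6_16.VJ.Res
import Pool.Agent.KS6_8.VJ.St1
import Pool.Agent.KS6_8.VJ.St2
import Pool.Agent.KS6_8.VJ.St3

/-!
# MP_e44225_nt: assembly
-/

open NumberField IsDedekindDomain
open scoped LaurentPolynomial

namespace KS6_16.VJ

open Pool.Agent.KS6_8.VJ

section units
variable {L : Type} [Field L] [NumberField L]

theorem nat_not_mem {T : Finset ℕ} {v : HeightOneSpectrum (𝓞 L)} (hv : ¬ Above T v) {n : ℕ}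
    (hn : n ≠ 0) (hT : ∀ p : ℕ, p.Prime → p ∣ n → p ∈ T) : (n : 𝓞 L) ∉ v.asIdeal := by
  intro h
  have h1 : ((n.primeFactorsList.map (Nat.cast : ℕ → 𝓞 L)).prod) ∈ v.asIdeal := by
    rw [← Nat.cast_list_prod, Nat.prod_primeFactorsList hn]
    exact h
  rw [← Multiset.prod_coe, v.isPrime.multiset_prod_mem_iff_exists_mem] at h1
  obtain ⟨x, hx, hxv⟩ := h1
  rw [Multiset.mem_coe, List.mem_map] at hx
  obtain ⟨p, hp, rfl⟩ := hx
  exact hv ⟨p, hT p (Nat.prime_of_mem_primeFactorsList hp) (Nat.dvd_of_mem_primeFactorsList hp), hxv⟩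

theorem place_le_one_of_val {w : FinitePlace L} {x : L} (h : w.maximalIdeal.valuation L x ≤ 1) :
    w x ≤ 1 := by
  have := place_le w.maximalIdeal x 0 (by simpa using h)
  rw [FinitePlace.mk_maximalIdeal] at this
  simpa using this

theorem place_int {w : FinitePlace L} {x : L} (h : IsIntegral ℤ x) : w x ≤ 1 :=
  place_le_one_of_val (val_int _ h)

theorem place_nat {T : Finset ℕ} {w : FinitePlace L} (hw : w ∉ aboveT L T) {n : ℕ}
    (hn : n ≠ 0) (hT : ∀ p : ℕ, p.Prime → p ∣ n → p ∈ T) : w (n : L) = 1 := by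
  have h1 : (n : 𝓞 L) ∉ w.maximalIdeal.asIdeal :=
    nat_not_mem (fun h => hw ((above_iff T w).2 h)) hn hT
  rw [mem_iff_place, FinitePlace.mk_maximalIdeal, not_lt] at h1
  refine le_antisymm (place_int ?_) h1
  have := isIntegral_natCast_pow (L := L) (N := n) 1
  simpa using this

theorem place_nint {w : FinitePlace L} {N : ℕ} (hw : w (N : L) = 1) {x : L} (h : NInt N x) :
    w x ≤ 1 := by
  obtain ⟨j, hj⟩ := h
  have := place_int (w := w) hj
  rw [map_mul, map_pow, hw, one_pow, one_mul] at this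
  exact this

theorem val_nint {v : HeightOneSpectrum (𝓞 L)} {N : ℕ} (hv : (N : 𝓞 L) ∉ v.asIdeal) {x : L}
    {j m : ℕ} {y : 𝓞 L} (hy : (y : L) = (N : L) ^ j * x) (hm : y ∈ v.asIdeal ^ m) :
    v.valuation L x ≤ WithZero.exp (-(m : ℤ)) := by
  have h1 : v.valuation L (algebraMap (𝓞 L) L y) ≤ WithZero.exp (-(m : ℤ)) := by
    rw [v.valuation_of_algebraMap, v.intValuation_le_pow_iff_mem]
    exact hm
  have h2 : algebraMap (𝓞 L) L y = (N : L) ^ j * x := hy
  rw [h2, map_mul, map_pow, val_nat v hv, one_pow, one_mul] at h1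
  exact h1

/-- the inequality over the field `L` -/
theorem level {K₁ : Type} [Field K₁] [NumberField K₁] [Algebra K₁ L] (T : Finset ℕ)
    (n₀ κ : ℕ) (hn : Module.finrank ℚ L ≤ n₀) (hκ : (aboveT L T).Finite ∧ (aboveT L T).ncard ≤ κ)
    (A₂ : ℝ)
    (hdisc : ∀ {m : ℕ} (ρ : Fin m → L), (∃ i, ρ i ≠ 0) →
      (∀ v : HeightOneSpectrum (𝓞 L), ¬ Above T v → ∀ m : ℕ,
        v.asIdeal ^ m ∣ differentIdeal (𝓞 K₁) (𝓞 L) →
          ∀ i, v.valuation L (ρ i) ≤ WithZero.exp (-(m : ℤ))) →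
      Real.log |(discr L : ℝ)| ≤ A₂ + ∑ᶠ w ∈ (aboveT L T)ᶜ, - Real.log (sup' ρ (fun y => w y)))
    (N : ℕ) (hN : N ≠ 0) (hNT : ∀ p : ℕ, p.Prime → p ∣ N → p ∈ T)
    {n₁ n₂ n₃ n₄ n₅ : ℕ} (p : Fin n₁ → L) (q : Fin n₂ → L) (p' : Fin n₃ → L) (q' : Fin n₄ → L)
    (δ : Fin n₅ → L) (hp : ∃ i, p i ≠ 0) (hq : ∃ i, q i ≠ 0) (hp' : ∃ i, p' i ≠ 0)
    (hq' : ∃ i, q' i ≠ 0) (hδ : ∃ i, δ i ≠ 0) (x : L) (hx : x ≠ 0) (H E : ℝ) (hH : 1 ≤ H)
    (hE : 0 < E) (hE1 : E ≤ 1)
    (h1 : ∀ w : FinitePlace L, w x * sup' p (fun y => w y) * sup' p' (fun y => w y) ≤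
      H * (sup' q (fun y => w y) * sup' q' (fun y => w y)))
    (h1' : ∀ w : InfinitePlace L, w x * sup' p (fun y => w y) * sup' p' (fun y => w y) ≤
      H * (sup' q (fun y => w y) * sup' q' (fun y => w y)))
    (h2 : ∀ w : FinitePlace L, w ∉ aboveT L T → w x * sup' p (fun y => w y) ≤
      sup' q (fun y => w y) * sup' δ (fun y => w y))
    (v : InfinitePlace L)
    (h3 : v x * sup' p (fun y => v y) * sup' p' (fun y => v y) ≤
      H * (sup' q (fun y => v y) * sup' q' (fun y => v y) * E))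
    (hd : ∀ i, ∃ j : ℕ, ∃ y ∈ differentIdeal (𝓞 K₁) (𝓞 L), (y : L) = (N : L) ^ j * δ i) :
    Real.log |(discr L : ℝ)| + (- Real.log E - (n₀ + κ) * Real.log H - A₂) ≤
    placeSum L (fun a => Real.log (sup' q a) - Real.log (sup' p a)) +
      placeSumS L T (fun a => Real.log (sup' q' a) - Real.log (sup' p' a)) := by
  have hw1 := w1 T hκ.1 κ hκ.2 p q p' q' δ hp hq hp' hq' hδ x hx H E hH hE hE1 h1 h1' h2 v h3
  have hD := hdisc δ hδ (by
    intro v hv m hm i
    obtain ⟨j, y, hy, hyj⟩ := hd i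
    refine val_nint (nat_not_mem hv hN hNT) hyj ?_
    exact Ideal.dvd_iff_le.1 hm hy)
  have hn' : (Module.finrank ℚ L : ℝ) ≤ n₀ := by exact_mod_cast hn
  have hlH : 0 ≤ Real.log H := Real.log_nonneg hH
  nlinarith [mul_le_mul_of_nonneg_right hn' hlH]

end units

/-! ### heights -/

section heights

theorem logHeight_eq_placeSum {L : Type} [Field L] [NumberField L] {m : ℕ} {x : Fin m → L}
    (hx : x ≠ 0) : Height.logHeight x = placeSum L (fun a => Real.log (sup' x a)) := by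
  have hx' : ∃ i, x i ≠ 0 := by
    by_contra hcon
    push Not at hcon
    exact hx (funext hcon)
  rw [Height.logHeight_eq_log_mulHeight, NumberField.mulHeight_eq hx, placeSum]
  have h1 : ∏ᶠ w : FinitePlace L, ⨆ i, w (x i) = ∏ w ∈ (fin_sup hx').toFinset, ⨆ i, w (x i) := by
    refine finprod_eq_prod_of_mulSupport_subset _ ?_
    intro w hw
    rw [Set.Finite.coe_toFinset]
    exact hw
  have h2 : ∑ᶠ w : FinitePlace L, Real.log (sup' x (fun y => w y)) =
      ∑ w ∈ (fin_sup hx').toFinset, Real.log (sup' x (fun y => w y)) := by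
    refine finsum_eq_sum_of_support_subset _ ?_
    intro w hw
    rw [Set.Finite.coe_toFinset]
    intro h0
    apply hw
    show Real.log (sup' x (fun y => w y)) = 0
    rw [h0, Real.log_one]
  rw [h1, h2]
  have hp : ∀ w : FinitePlace L, (⨆ i, w (x i)) ≠ 0 := fun w => (sup'_pos_fin hx' w).ne'
  have hq : ∀ w : InfinitePlace L, (⨆ i, w (x i)) ≠ 0 := fun w => (sup'_pos_inf hx' w).ne'
  rw [Real.log_mul (Finset.prod_ne_zero_iff.2 fun w _ => pow_ne_zero _ (hq w))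
    (Finset.prod_ne_zero_iff.2 fun w _ => hp w), Real.log_prod (fun w _ => pow_ne_zero _ (hq w)),
    Real.log_prod (fun w _ => hp w)]
  simp only [Real.log_pow]
  rfl

theorem logHeight₁_eq_placeSum {L : Type} [Field L] [NumberField L] (x : L) :
    Height.logHeight₁ x = placeSum L (fun a => Real.posLog (a x)) :=
  NumberField.logHeight₁_eq x

/-- `posLog (A (1 + n₀ (hβ + h))) ≤ posLog h + C` -/
theorem posLog_le (A n₀ hβ : ℝ) (hA : 0 ≤ A) (hn : 0 ≤ n₀) (hβ0 : 0 ≤ hβ) : ∃ C : ℝ, 0 ≤ C ∧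
    ∀ h : ℝ, 0 ≤ h → Real.posLog (A * (1 + n₀ * (hβ + h))) ≤ Real.posLog h + C := by
  refine ⟨Real.posLog (A * (1 + n₀ * hβ + n₀)), Real.posLog_nonneg, fun h hh => ?_⟩
  have h1 : A * (1 + n₀ * (hβ + h)) ≤ (A * (1 + n₀ * hβ + n₀)) * max 1 h := by
    have h2 : 1 + n₀ * (hβ + h) ≤ (1 + n₀ * hβ + n₀) * max 1 h := by
      have a1 : (1 : ℝ) ≤ max 1 h := le_max_left _ _
      have a2 : h ≤ max 1 h := le_max_right _ _
      nlinarith [mul_nonneg hn hβ0, mul_le_mul_of_nonneg_left a2 hn,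
        mul_le_mul_of_nonneg_left a1 (mul_nonneg hn hβ0)]
    calc A * (1 + n₀ * (hβ + h)) ≤ A * ((1 + n₀ * hβ + n₀) * max 1 h) :=
        mul_le_mul_of_nonneg_left h2 hA
      _ = _ := by ring
  have h3 : Real.posLog (A * (1 + n₀ * (hβ + h))) ≤
      Real.posLog ((A * (1 + n₀ * hβ + n₀)) * max 1 h) :=
    Real.posLog_le_posLog (by positivity) h1
  have h4 := Real.posLog_mul (x := A * (1 + n₀ * hβ + n₀)) (y := max 1 h)
  have h5 : Real.posLog (max 1 h) = Real.posLog h := by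
    rcases le_total 1 h with h6 | h6
    · rw [max_eq_right h6]
    · rw [max_eq_left h6, Real.posLog_one]
      exact ((Real.posLog_eq_zero_iff h).2 (by rw [abs_of_nonneg hh]; exact h6)).symm
  linarith

end heights

end KS6_16.VJ
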