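import Mathlib
import Pool.Agent.KS6_16.VJ.Defs3

/-!
# MP_e44225_nt: the final form
-/

open NumberField IsDedekindDomain

namespace KS6_16.VJ

/-- The final theorem, with an arbitrary divisor `A = div a - div b`. -/
def Final2 : Prop := ∀ (k K F : Type) [Field k] [NumberField k] [Field K] [Field F] [Algebra k K]
  [Algebra K F] [Algebra k F] [IsScalarTower k K F] [FiniteDimensional K F], FunField k K →
  ∀ (𝒟 : Set (ValuationSubring K)) (t : F), Cover k 𝒟 t → Hyp k 𝒟 t →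
  ∀ (D : Derivation k K K), D ≠ 0 →
  ∀ {n₁ n₂ n₃ n₄ : ℕ} (p : Fin n₁ → K) (q : Fin n₂ → K) (p' : Fin n₃ → K) (q' : Fin n₄ → K),
  RepCan k D p q → RepDiv k 𝒟 p' q' →
  ∃ (r : ℕ) (c : ℝ) (T₀ : Finset ℕ), 0 < c ∧ ∀ T : Finset ℕ, T₀ ⊆ T → (∀ p ∈ T, p.Prime) →
  ∀ C : ℝ, C < c * T.card → ∀ {m₁ m₂ : ℕ} (a : Fin m₁ → K) (b : Fin m₂ → K),
  (∃ i, a i ≠ 0) → (∃ i, b i ≠ 0) → ∀ M : ℝ,
  {P : ValuationSubring K | IsPlace k P ∧
    ∃ (L : Type) (_ : Field L) (_ : NumberField L) (_ : Algebra k L) (φ : P →+* L),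
      Function.Surjective φ ∧ (∀ a : k, ev φ (algebraMap k K a) = algebraMap k L a) ∧
      Module.finrank k L ≤ r ∧ Reg p φ ∧ Reg q φ ∧ Reg p' φ ∧ Reg q' φ ∧ Reg a φ ∧ Reg b φ ∧
      C * Real.log (max 1 (placeSum L (weil a b φ) / Module.finrank k L)) +
        Real.log |(discr L : ℝ)| / Module.finrank k L + M ≤
      placeSum L (weil p q φ) / Module.finrank k L +
        placeSumS L T (weil p' q' φ) / Module.finrank k L}.Infinite

end KS6_16.VJ
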