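import Mathlib
import Pool.Agent.KS6_16.VJ.Asm

/-!
# MP_e44225_nt: consequences of the invariance of place sums
-/

open NumberField IsDedekindDomain

namespace KS6_16.VJ

section
variable {L' L : Type} [Field L'] [NumberField L'] [Field L] [NumberField L] [Algebra L' L]

theorem hom_sup {m : ℕ} (x : Fin m → L') (a : L' → ℝ) (ha : ∀ y, 0 ≤ a y) (n : ℕ) (hn : 0 < n) :
    Real.log (sup' x (fun y => a y ^ n)) = n * Real.log (sup' x a) := by
  have h : sup' x (fun y => a y ^ n) = (sup' x a) ^ n := by
    unfold sup'
    exact (Real.iSup_pow_of_ne_zero (fun i => ha (x i)) hn.ne').symm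
  rw [h, Real.log_pow]

theorem fin_supp {m : ℕ} {x : Fin m → L'} (hx : ∃ i, x i ≠ 0) :
    {w : FinitePlace L' | Real.log (sup' x (fun y => w y)) ≠ 0}.Finite := by
  refine (fin_sup hx).subset ?_
  intro w hw h0
  apply hw
  rw [h0, Real.log_one]

theorem fin_supp2 {m n : ℕ} {x : Fin m → L'} {y : Fin n → L'} (hx : ∃ i, x i ≠ 0)
    (hy : ∃ i, y i ≠ 0) :
    {w : FinitePlace L' | Real.log (sup' x (fun z => w z)) -
      Real.log (sup' y (fun z => w z)) ≠ 0}.Finite := by
  refine ((fin_supp hx).union (fin_supp hy)).subset ?_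
  intro w hw
  by_contra hcon
  simp only [Set.mem_union, Set.mem_ofPred_eq, not_or, not_not] at hcon
  apply hw
  rw [hcon.1, hcon.2, sub_zero]

theorem inv_weil (hI : StINV) {m n : ℕ} (x : Fin m → L') (y : Fin n → L') (hx : ∃ i, x i ≠ 0)
    (hy : ∃ i, y i ≠ 0) :
    placeSum L (fun a => Real.log (sup' (fun i => algebraMap L' L (x i)) a) -
      Real.log (sup' (fun i => algebraMap L' L (y i)) a)) =
      Module.finrank L' L * placeSum L' (fun a => Real.log (sup' x a) - Real.log (sup' y a)) ∧
    ∀ T : Finset ℕ, (∀ p ∈ T, p.Prime) →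
    placeSumS L T (fun a => Real.log (sup' (fun i => algebraMap L' L (x i)) a) -
      Real.log (sup' (fun i => algebraMap L' L (y i)) a)) =
      Module.finrank L' L * placeSumS L' T (fun a => Real.log (sup' x a) - Real.log (sup' y a)) := by
  refine hI L' L (fun a => Real.log (sup' x a) - Real.log (sup' y a)) ?_ (fin_supp2 hx hy)
  intro a ha n hn
  show Real.log (sup' x (fun y => a y ^ n)) - Real.log (sup' y (fun y => a y ^ n)) = _
  rw [hom_sup x a ha n hn, hom_sup y a ha n hn]
  ring

theorem inv_height (hI : StINV) {m : ℕ} (x : Fin m → L') :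
    Height.logHeight (fun i => algebraMap L' L (x i)) =
      Module.finrank L' L * Height.logHeight x := by
  by_cases hx : x = 0
  · subst hx
    have : (fun i => algebraMap L' L ((0 : Fin m → L') i)) = 0 := by
      funext i
      simp
    rw [this, Height.logHeight_zero, Height.logHeight_zero, mul_zero]
  · have hx' : ∃ i, x i ≠ 0 := by
      by_contra hcon
      push Not at hcon
      exact hx (funext hcon)
    have hy : (fun i => algebraMap L' L (x i)) ≠ 0 := by
      obtain ⟨i, hi⟩ := hx'
      intro h
      apply hi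
      have := congrFun h i
      exact (map_eq_zero (algebraMap L' L)).1 this
    rw [logHeight_eq_placeSum hx, logHeight_eq_placeSum hy]
    refine (hI L' L (fun a => Real.log (sup' x a)) ?_ (fin_supp hx')).1
    intro a ha n hn
    exact hom_sup x a ha n hn

theorem inv_height₁ (hI : StINV) (x : L') :
    Height.logHeight₁ (algebraMap L' L x) = Module.finrank L' L * Height.logHeight₁ x := by
  rw [logHeight₁_eq_placeSum, logHeight₁_eq_placeSum]
  refine (hI L' L (fun a => Real.posLog (a x)) ?_ ?_).1
  · intro a ha n hn
    exact Real.posLog_pow n (a x)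
  · by_cases hx : x = 0
    · subst hx
      convert Set.finite_empty
      ext w
      simp
    · refine (fin_one hx).subset ?_
      intro w hw h0
      apply hw
      show Real.posLog (w x) = 0
      rw [h0, Real.posLog_one]

end

end KS6_16.VJ
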