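import Mathlib
import Pool.Agent.KS6_16.VJ.Inv2

/-!
# MP_e44225_nt: preparations for the final assembly
-/

open NumberField IsDedekindDomain
open scoped LaurentPolynomial

namespace KS6_16.VJ

open Pool.Agent.KS6_8.VJ

theorem ev_add {K L : Type} [Field K] [Field L] {P : ValuationSubring K} (φ : P →+* L) {g h : K}
    (hg : g ∈ P) (hh : h ∈ P) : ev φ (g + h) = ev φ g + ev φ h := by
  rw [ev_of_mem φ hg, ev_of_mem φ hh, ev_of_mem φ (add_mem hg hh), ← map_add]
  rfl

theorem inv_mem_of_ev {k F L : Type} [Field k] [CharZero k] [Field F] [Algebra k F] [Field L]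
    [NumberField L] {O : ValuationSubring F} (hO : IsPlace k O) (Φ : O →+* L) {g : F}
    (hg : g ∈ O) (h : ev Φ g ≠ 0) : g⁻¹ ∈ O := by
  by_contra hcon
  let χ₀ : k →+* O :=
    { toFun := fun a => ⟨algebraMap k F a, hO.1 a⟩
      map_one' := Subtype.ext (map_one _)
      map_mul' := fun a b => Subtype.ext (map_mul _ _ _)
      map_zero' := Subtype.ext (map_zero _)
      map_add' := fun a b => Subtype.ext (map_add _ _ _) }
  let χ : ℚ →+* O := χ₀.comp (algebraMap ℚ k)
  set g' : O := ⟨g, hg⟩ with hg'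
  rw [ev_of_mem Φ hg] at h
  set x := Φ g' with hx
  have hint : IsIntegral ℚ x := Algebra.IsIntegral.isIntegral x
  set m := minpoly ℚ x with hm
  have hm0 : m.coeff 0 ≠ 0 := minpoly.coeff_zero_ne_zero hint h
  set y := m.eval₂ χ g' with hy
  have hΦy : Φ y = 0 := by
    rw [hy, Polynomial.hom_eval₂]
    have : Φ.comp χ = algebraMap ℚ L := RingHom.ext_rat _ _
    rw [this]
    exact minpoly.aeval ℚ x
  have hyn : ¬ IsUnit y := by
    intro hu
    have := hu.map Φ
    rw [hΦy] at this
    exact not_isUnit_zero this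
  have hgn : ¬ IsUnit g' := by
    intro hu
    obtain ⟨z, hz⟩ := hu.exists_right_inv
    apply hcon
    have h1 : g * (z : F) = 1 := congrArg Subtype.val hz
    have h2 : g ≠ 0 := left_ne_zero_of_mul_eq_one h1
    rw [inv_eq_of_mul_eq_one_right h1]
    exact z.2
  have h1 : y = (m.divX.eval₂ χ g') * g' + χ (m.coeff 0) := by
    rw [hy]
    conv_lhs => rw [← m.divX_mul_X_add]
    rw [Polynomial.eval₂_add, Polynomial.eval₂_mul, Polynomial.eval₂_X, Polynomial.eval₂_C]
  have h2 : χ (m.coeff 0) ∈ IsLocalRing.maximalIdeal O := by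
    have h3 : χ (m.coeff 0) = y - (m.divX.eval₂ χ g') * g' := by rw [h1]; ring
    rw [h3]
    exact Ideal.sub_mem _ ((IsLocalRing.mem_maximalIdeal y).2 hyn)
      (Ideal.mul_mem_left _ _ ((IsLocalRing.mem_maximalIdeal g').2 hgn))
  exact (IsLocalRing.mem_maximalIdeal _).1 h2 ((IsUnit.mk0 _ hm0).map χ)

theorem unif_comap {K F : Type} [Field K] [Field F] [Algebra K F] {O : ValuationSubring F} {z : K}
    (hz : Unif O (algebraMap K F z)) : Unif (O.comap (algebraMap K F)) z := by
  have key : ∀ x y : K, (O.comap (algebraMap K F)).valuation x ≤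
      (O.comap (algebraMap K F)).valuation y ↔ O.valuation (algebraMap K F x) ≤
      O.valuation (algebraMap K F y) := by
    intro x y
    by_cases hy : y = 0
    · subst hy
      rw [map_zero, map_zero, map_zero]
      simp
    · have hy' : algebraMap K F y ≠ 0 := by simpa using hy
      have e1 : (O.comap (algebraMap K F)).valuation x ≤ (O.comap (algebraMap K F)).valuation y ↔
          x / y ∈ O.comap (algebraMap K F) := by
        rw [← ValuationSubring.valuation_le_one_iff, map_div₀,
          div_le_one₀ (zero_lt_iff.2 ((Valuation.ne_zero_iff _).2 hy))]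
      have e2 : O.valuation (algebraMap K F x) ≤ O.valuation (algebraMap K F y) ↔
          algebraMap K F x / algebraMap K F y ∈ O := by
        rw [← ValuationSubring.valuation_le_one_iff, map_div₀,
          div_le_one₀ (zero_lt_iff.2 ((Valuation.ne_zero_iff _).2 hy'))]
      rw [e1, e2, ValuationSubring.mem_comap, map_div₀]
  intro y
  have h1 := hz (algebraMap K F y)
  rw [key, ← h1, ← not_le, ← not_le, not_iff_not]
  have h2 := key 1 y
  rw [map_one, map_one, map_one] at h2
  exact h2

theorem avoid {bad : Set ℚ} (h : bad.Finite) : ∃ ε : ℝ, 0 < ε ∧ ∀ w : ℚ, w ≠ 1 →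
    |(w : ℝ) - 1| < ε → w ∉ bad := by
  induction bad, h using Set.Finite.induction_on with
  | empty => exact ⟨1, one_pos, fun _ _ _ h => h⟩
  | @insert a s _ _ ih =>
    obtain ⟨ε, hε, h⟩ := ih
    by_cases ha : a = 1
    · refine ⟨ε, hε, fun w hw hwε hcon => ?_⟩
      rcases Set.mem_insert_iff.1 hcon with rfl | h1
      · exact hw ha
      · exact h w hw hwε h1
    · have ha' : 0 < |(a : ℝ) - 1| := abs_pos.2 (sub_ne_zero.2 (by exact_mod_cast ha))
      refine ⟨min ε |(a : ℝ) - 1|, lt_min hε ha', fun w hw hwε hcon => ?_⟩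
      rcases Set.mem_insert_iff.1 hcon with rfl | h1
      · exact absurd hwε (not_lt.2 (min_le_right _ _))
      · exact h w hw (hwε.trans_le (min_le_left _ _)) h1

theorem posLog_height_ge {w : ℚ} (hw : w ≠ 1) {H : ℝ}
    (h : |(w : ℝ) - 1| < Real.exp (- Real.exp H)) : H ≤ Real.posLog (Height.logHeight₁ w) := by
  have hd : (0 : ℝ) < w.den := by exact_mod_cast w.den_pos
  have h1 : (1 : ℝ) / w.den ≤ |(w : ℝ) - 1| := by
    have h2 : (w : ℝ) - 1 = ((w.num - w.den : ℤ) : ℝ) / w.den := by
      rw [Int.cast_sub, Int.cast_natCast, sub_div, div_self hd.ne']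
      congr 1
      exact_mod_cast (Rat.num_div_den w).symm
    rw [h2, abs_div, abs_of_pos hd]
    refine div_le_div_of_nonneg_right ?_ hd.le
    have h3 : w.num - w.den ≠ 0 := by
      intro h0
      apply hw
      have : w.num = w.den := by omega
      rw [← Rat.num_div_den w, this]
      have : ((w.den : ℤ) : ℚ) ≠ 0 := by exact_mod_cast w.den_pos.ne'
      simp
    have h4 : 1 ≤ |w.num - (w.den : ℤ)| := Int.one_le_abs h3
    exact_mod_cast h4
  have h2 : Real.exp (Real.exp H) < w.den := by
    have h3 : 1 / (w.den : ℝ) < Real.exp (-Real.exp H) := h1.trans_lt h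
    rw [Real.exp_neg, one_div, inv_lt_inv₀ hd (Real.exp_pos _)] at h3
    exact h3
  have h3 : Real.exp H < Real.log w.den := by
    rw [Real.lt_log_iff_exp_lt hd]
    exact h2
  have h4 : Real.log w.den ≤ Height.logHeight₁ w := by
    rw [Rat.logHeight₁_eq_log_max]
    refine Real.log_le_log hd ?_
    exact_mod_cast le_max_right _ _
  have h5 : Real.log (Real.exp H) ≤ Real.log (Height.logHeight₁ w) :=
    Real.log_le_log (Real.exp_pos _) (h3.le.trans h4)
  rw [Real.log_exp] at h5
  exact h5.trans (by rw [Real.posLog]; exact le_max_right _ _)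

theorem exists_nat_int {K : Type} [Field K] [NumberField K] (x : K) :
    ∃ M : ℕ, 0 < M ∧ IsIntegral ℤ ((M : K) * x) := by
  have halg : IsAlgebraic ℤ x := (IsFractionRing.isAlgebraic_iff ℤ ℚ K).2
    (Algebra.IsAlgebraic.isAlgebraic (R := ℚ) x)
  obtain ⟨y, hy0, hy⟩ := halg.exists_integral_multiple
  refine ⟨y.natAbs, Int.natAbs_pos.2 hy0, ?_⟩
  rw [zsmul_eq_mul] at hy
  rcases Int.natAbs_eq y with h | h
  · have : ((y.natAbs : ℕ) : K) = (y : K) := by
      conv_rhs => rw [h]
      simp
    rw [this]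
    exact hy
  · have : ((y.natAbs : ℕ) : K) = - (y : K) := by
      conv_rhs => rw [h]
      simp
    rw [this, neg_mul]
    exact hy.neg

end KS6_16.VJ
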