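import Mathlib
import Pool.Agent.KS6_16.VJ.Pre

/-!
# MP_e44225_nt: final assembly
-/

open NumberField IsDedekindDomain
open scoped LaurentPolynomial

namespace KS6_16.VJ

open Pool.Agent.KS6_8.VJ

theorem numeric (c T1 n₁ C M Kc C₇ Lh Ex d e sK sD dL dL' pl : ℝ) (hn₁ : 1 ≤ n₁) (hd : 1 ≤ d)
    (he : 1 ≤ e) (hde : d * e ≤ n₁) (ha : dL + Ex ≤ d * sK + d * sD) (hb : d * dL' ≤ dL)
    (hEx : c * T1 * Lh - Kc ≤ Ex) (hEx0 : |Kc| ≤ c * T1 * Lh) (hpl0 : 0 ≤ pl)
    (hpl : pl ≤ Lh + C₇)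
    (hη : (max C 0) * C₇ + |M| + |Kc| ≤ (c / n₁ * T1 - max C 0) * Lh) :
    C * pl + dL' / e + M ≤ sK / e + sD / e := by
  have hn0 : 0 < n₁ := by linarith
  have he0 : 0 < e := by linarith
  have hd0 : 0 < d := by linarith
  have hde0 : 0 < d * e := mul_pos hd0 he0
  have hKc := le_abs_self Kc
  have hEx' : 0 ≤ Ex := by linarith
  have h1 : Ex ≤ d * (sK + sD - dL') := by linarith
  have h2 : Ex / n₁ ≤ (sK + sD - dL') / e := by
    have h3 : Ex / n₁ ≤ Ex / (d * e) := div_le_div_of_nonneg_left hEx' hde0 hde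
    have h4 : Ex / (d * e) ≤ (sK + sD - dL') / e := by
      rw [div_le_div_iff₀ hde0 he0]
      nlinarith
    exact h3.trans h4
  have h5 : c / n₁ * T1 * Lh - |Kc| ≤ Ex / n₁ := by
    rw [le_div_iff₀ hn0]
    have h6 : c / n₁ * T1 * Lh * n₁ = c * T1 * Lh := by
      field_simp
    have h7 : |Kc| ≤ |Kc| * n₁ := by
      nlinarith [abs_nonneg Kc]
    nlinarith
  have h8 : C * pl ≤ max C 0 * (Lh + C₇) :=
    (mul_le_mul_of_nonneg_right (le_max_left C 0) hpl0).trans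
      (mul_le_mul_of_nonneg_left hpl (le_max_right C 0))
  have h9 : (sK + sD - dL') / e = sK / e + sD / e - dL' / e := by
    rw [sub_div, add_div]
  have h10 := le_abs_self M
  nlinarith

theorem laurent_mem {k B F : Type} [Field k] [CommRing B] [Field F] [Algebra k F]
    [Algebra k[T;T⁻¹] B] [Algebra B F] {t : F}
    (hBt : algebraMap B F (algebraMap k[T;T⁻¹] B (LaurentPolynomial.T 1)) = t)
    (hBC : ∀ a : k, algebraMap B F (algebraMap k[T;T⁻¹] B (LaurentPolynomial.C a)) =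
      algebraMap k F a) (x : k[T;T⁻¹]) :
    algebraMap B F (algebraMap k[T;T⁻¹] B x) ∈ IntermediateField.adjoin k {t} := by
  set θ : k[T;T⁻¹] →+* F := (algebraMap B F).comp (algebraMap k[T;T⁻¹] B) with hθ
  have ht : θ (LaurentPolynomial.T 1) = t := hBt
  have htinv : θ (LaurentPolynomial.T (-1)) = t⁻¹ := by
    have h : θ (LaurentPolynomial.T 1) * θ (LaurentPolynomial.T (-1)) = 1 := by
      rw [← map_mul, ← LaurentPolynomial.T_add]
      simp
    rw [ht] at h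
    exact eq_inv_of_mul_eq_one_right h
  have htm : t ∈ IntermediateField.adjoin k {t} :=
    IntermediateField.subset_adjoin k {t} (Set.mem_singleton t)
  show θ x ∈ _
  induction x using LaurentPolynomial.induction_on' with
  | add a b ha hb =>
    rw [map_add]
    exact add_mem ha hb
  | C_mul_T n a =>
    rw [map_mul]
    refine mul_mem ?_ ?_
    · have : θ (LaurentPolynomial.C a) = algebraMap k F a := hBC a
      rw [this]
      exact (IntermediateField.adjoin k {t}).algebraMap_mem a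
    · rcases Int.eq_nat_or_neg n with ⟨m, rfl | rfl⟩
      · have h6 : (LaurentPolynomial.T (m : ℤ) : k[T;T⁻¹]) = LaurentPolynomial.T 1 ^ m := by
          rw [LaurentPolynomial.T_pow, mul_one]
        rw [h6, map_pow, ht]
        exact pow_mem htm m
      · have h6 : (LaurentPolynomial.T (-(m : ℤ)) : k[T;T⁻¹]) = LaurentPolynomial.T (-1) ^ m := by
          rw [LaurentPolynomial.T_pow]
          congr 1
          ring
        rw [h6, map_pow, htinv]
        exact pow_mem (inv_mem htm) m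

theorem alg_of_model {k B F : Type} [Field k] [CommRing B] [IsDomain B] [Field F] [Algebra k F]
    [Algebra k[T;T⁻¹] B] [Module.Finite k[T;T⁻¹] B] [Algebra B F] [IsFractionRing B F] {t : F}
    (hBt : algebraMap B F (algebraMap k[T;T⁻¹] B (LaurentPolynomial.T 1)) = t)
    (hBC : ∀ a : k, algebraMap B F (algebraMap k[T;T⁻¹] B (LaurentPolynomial.C a)) =
      algebraMap k F a) : Algebra.IsAlgebraic (IntermediateField.adjoin k {t}) F := by
  have hmem := laurent_mem hBt hBC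
  let h : k[T;T⁻¹] →+* IntermediateField.adjoin k {t} :=
    { toFun := fun x => ⟨algebraMap B F (algebraMap k[T;T⁻¹] B x), hmem x⟩
      map_one' := Subtype.ext (by simp)
      map_mul' := fun a b => Subtype.ext (by simp)
      map_zero' := Subtype.ext (by simp)
      map_add' := fun a b => Subtype.ext (by simp) }
  have hint : ∀ x : B, IsAlgebraic (IntermediateField.adjoin k {t}) (algebraMap B F x) := by
    intro x
    refine IsIntegral.isAlgebraic ?_
    obtain ⟨P, hP, hPx⟩ := Algebra.IsIntegral.isIntegral (R := k[T;T⁻¹]) x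
    refine ⟨P.map h, hP.map h, ?_⟩
    rw [Polynomial.eval₂_map]
    have e : (algebraMap (IntermediateField.adjoin k {t}) F).comp h =
        (algebraMap B F).comp (algebraMap k[T;T⁻¹] B) := rfl
    rw [e, ← Polynomial.hom_eval₂, hPx, map_zero]
  refine ⟨fun y => ?_⟩
  obtain ⟨a, b, _, rfl⟩ := IsFractionRing.div_surjective B y
  rw [div_eq_mul_inv]
  exact (hint a).mul (hint b).inv

set_option maxHeartbeats 4000000 in
theorem final_of (hO : StO) (hO4 : StO4) (hW2 : StW2) (hFin : StFin) (hINV : StINV) : Final := by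
  classical
  intro k K F _ _ _ _ _ _ _ _ _ hf 𝒟 t hC hH D hD n₁ n₂ n₃ n₄ p q p' q' hpq hpq'
  obtain ⟨f, hf1, hf2⟩ := hf
  obtain ⟨B, iB1, iB2, iB3, iB4, iB5, iB6, iB7, hBt, hBC⟩ := hFin k K F f hf1 hf2 t hC.1
  obtain ⟨G, Δ, S, P, hG0, hΔ, ⟨δ₀, hδ₀, hδ₀'⟩, hP, hSP, ⟨s₀, hs₀, -⟩, hbd⟩ :=
    hO k K F ⟨f, hf1, hf2⟩ 𝒟 t hC hH D hD p q p' q' hpq hpq' B hBt hBC
  obtain ⟨K₁, iK1, iK2, ι, β, n₀, A, c, ρ, hβ, hA, hc, hρ, hpts⟩ :=
    hW2 k F t B hBt hBC P S hP hSP
  obtain ⟨N, hN, hbd⟩ := hbd n₀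
  set R₁ : ℝ := ∑ σ : InfinitePlace K₁, (σ β + (σ β)⁻¹) with hR₁
  obtain ⟨H, hH1, hbd⟩ := hbd (2 * R₁)
  -- M2
  have hM2 : ∀ δ : Δ, ∃ N₀ : ℕ, 0 < N₀ ∧ ∀ N : ℕ, 0 < N → N₀ ∣ N →
      ∀ (L : Type) [Field L] [NumberField L] (K₁ : Type) [Field K₁] [NumberField K₁] [Algebra K₁ L]
        (φ : B →+* L) (u : K₁),
        φ (algebraMap k[T;T⁻¹] B (LaurentPolynomial.T 1)) = algebraMap K₁ L u →
        (∀ a : k, ∃ a' : K₁,
          φ (algebraMap k[T;T⁻¹] B (LaurentPolynomial.C a)) = algebraMap K₁ L a') →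
        Algebra.adjoin K₁ (Set.range φ) = ⊤ →
        (∃ j : ℕ, IsIntegral ℤ ((N : K₁) ^ j * u)) → (∃ j : ℕ, IsIntegral ℤ ((N : K₁) ^ j * u⁻¹)) →
        ∃ j : ℕ, ∃ y ∈ differentIdeal (𝓞 K₁) (𝓞 L), (y : L) = (N : L) ^ j * φ δ :=
    fun δ => stM2 k B δ (hΔ δ δ.2)
  choose N₀ hN₀ hM2 using hM2
  obtain ⟨M₁, hM₁, hM₁β⟩ := exists_nat_int β
  obtain ⟨M₂, hM₂, hM₂β⟩ := exists_nat_int β⁻¹
  set N' : ℕ := N * (∏ δ : Δ, N₀ δ) * M₁ * M₂ with hN'
  have hN'0 : 0 < N' := by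
    refine Nat.mul_pos (Nat.mul_pos (Nat.mul_pos hN ?_) hM₁) hM₂
    exact Finset.prod_pos fun δ _ => hN₀ δ
  set T₀ : Finset ℕ := {2, 3} ∪ N'.primeFactors with hT₀
  have hn₁ : (1 : ℝ) ≤ (n₀ : ℝ) + 1 := by
    have : (0 : ℝ) ≤ n₀ := Nat.cast_nonneg _
    linarith
  refine ⟨n₀, c / (2 * ((n₀ : ℝ) + 1)), T₀, by positivity, ?_⟩
  intro T hT0 hT C hCT m α M
  have hT2 : 2 ≤ T.card := by
    have h1 : ({2, 3} : Finset ℕ) ⊆ T := (Finset.subset_union_left).trans hT0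
    have h2 := Finset.card_le_card h1
    simpa using h2
  have hT2' : (2 : ℝ) ≤ T.card := by exact_mod_cast hT2
  obtain ⟨κ, hκ⟩ := aboveT_finite T hT n₀
  obtain ⟨A₂, hA₂⟩ := disc_fin n₀ T hT (Real.log |(discr K₁ : ℝ)|)
  obtain ⟨A₁, hA₁⟩ := stM1 T hT hT2
  have halg : Algebra.IsAlgebraic (IntermediateField.adjoin k {t}) F := alg_of_model hBt hBC
  obtain ⟨A₄, a₀, ha₀, hO4'⟩ := hO4 k F t hC.1 halg (fun i => algebraMap K F (α i)) n₀
  obtain ⟨C₇, hC₇0, hC₇⟩ := posLog_le |A₄| n₀ (Height.logHeight₁ β) (abs_nonneg _)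
    (Nat.cast_nonneg _) (Height.zero_le_logHeight₁ _)
  intro hfin
  -- a nonunit at each place
  have hg : ∀ Q : ValuationSubring K, ∃ g : K, IsPlace k Q → g ≠ 0 ∧ g ∈ Q ∧ g⁻¹ ∉ Q := by
    intro Q
    by_cases hQ : IsPlace k Q
    · obtain ⟨x, hx⟩ : ∃ x : K, x ∉ Q := by
        by_contra hcon
        push Not at hcon
        exact hQ.2 (eq_top_iff.2 fun x _ => hcon x)
      have hx0 : x ≠ 0 := by
        rintro rfl
        exact hx Q.zero_mem
      exact ⟨x⁻¹, fun _ => ⟨inv_ne_zero hx0, (Q.mem_or_inv_mem x).resolve_left hx, by rwa [inv_inv]⟩⟩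
    · exact ⟨1, fun h => absurd h hQ⟩
  choose g hg using hg
  -- the functions which must not vanish
  set Γ₀ : Finset F := insert G (insert (Polynomial.aeval t a₀)
    (Finset.univ.image (fun i => algebraMap K F (p i)) ∪
      Finset.univ.image (fun i => algebraMap K F (q i)) ∪
      Finset.univ.image (fun i => algebraMap K F (p' i)) ∪
      Finset.univ.image (fun i => algebraMap K F (q' i)) ∪
      Finset.univ.image (fun i => algebraMap K F (α i)) ∪ Δ.image (algebraMap B F) ∪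
      hfin.toFinset.image (fun Q => algebraMap K F (g Q)))) with hΓ₀
  obtain ⟨bad, hbad, hpt⟩ := hpts (Γ₀.filter (fun y => y ≠ 0))
    (fun y hy => (Finset.mem_filter.1 hy).2)
  obtain ⟨ε₁, hε₁, hav⟩ := avoid hbad
  have hT1 : (0 : ℝ) < (T.card : ℝ) - 1 := by linarith
  set Kc : ℝ := c * A₁ + ((n₀ + κ) * Real.log H + A₂ + Real.log A) with hKc
  have hη : 0 < c / ((n₀ : ℝ) + 1) * ((T.card : ℝ) - 1) - max C 0 := by
    have hpos : 0 < c / ((n₀ : ℝ) + 1) := div_pos hc (by linarith)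
    have h1 : c / (2 * ((n₀ : ℝ) + 1)) * T.card ≤ c / ((n₀ : ℝ) + 1) * ((T.card : ℝ) - 1) := by
      have h2 : c / (2 * ((n₀ : ℝ) + 1)) = c / ((n₀ : ℝ) + 1) / 2 := by
        rw [mul_comm, div_div]
      rw [h2]
      nlinarith
    rcases le_total C 0 with h | h
    · rw [max_eq_right h, sub_zero]
      exact mul_pos hpos hT1
    · rw [max_eq_left h]
      linarith
  set H₁ : ℝ := max ((max C 0 * C₇ + |M| + |Kc|) /
    (c / ((n₀ : ℝ) + 1) * ((T.card : ℝ) - 1) - max C 0)) (|Kc| / (c * ((T.card : ℝ) - 1))) with hH₁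
  obtain ⟨ε, hε, hερ, hεε₁, hε2, hεH, hεA⟩ : ∃ ε : ℝ, 0 < ε ∧ ε ≤ ρ ∧ ε ≤ ε₁ ∧ ε ≤ 1 / 2 ∧
      ε ≤ Real.exp (- Real.exp H₁) ∧ ε ≤ (A⁻¹) ^ (1 / c) := by
    refine ⟨min (min ρ ε₁) (min (min (1 / 2) (Real.exp (- Real.exp H₁))) ((A⁻¹) ^ (1 / c))),
      ?_, ?_, ?_, ?_, ?_, ?_⟩
    · have : 0 < (A⁻¹) ^ (1 / c) := Real.rpow_pos_of_pos (inv_pos.2 hA) _
      have := Real.exp_pos (- Real.exp H₁)
      simp only [lt_min_iff]
      exact ⟨⟨hρ, hε₁⟩, ⟨by norm_num, by assumption⟩, by assumption⟩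
    · exact (min_le_left _ _).trans (min_le_left _ _)
    · exact (min_le_left _ _).trans (min_le_right _ _)
    · exact (min_le_right _ _).trans ((min_le_left _ _).trans (min_le_left _ _))
    · exact (min_le_right _ _).trans ((min_le_left _ _).trans (min_le_right _ _))
    · exact (min_le_right _ _).trans (min_le_right _ _)
  obtain ⟨w, hw0, hw1, hwε, ⟨j, a, b, hja, hjb⟩, hwM⟩ := hA₁ ε hε
  obtain ⟨L, iL1, iL2, iL3, O, Φ, v, hLn, hOp, hΦk, htO, htO', hΦt, hBO, hadj, hΓ, hS⟩ :=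
    hpt w (hav w hw1 (hwε.trans_le hεε₁)) (hwε.trans_le hερ)
  set Lh : ℝ := Real.posLog (Height.logHeight₁ w) with hLh
  have hLh1 : H₁ ≤ Lh := posLog_height_ge hw1 (hwε.trans_le hεH)
  have hwpos : 0 < |(w : ℝ) - 1| := abs_pos.2 (sub_ne_zero.2 (by exact_mod_cast hw1))
  have hmemΓ : ∀ y ∈ Γ₀, y ∈ O ∧ (y ≠ 0 → ev Φ y ≠ 0) := by
    intro y hy
    by_cases hy0 : y = 0
    · subst hy0
      exact ⟨O.zero_mem, fun h => absurd rfl h⟩
    · have := hΓ y (Finset.mem_filter.2 ⟨hy, hy0⟩)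
      exact ⟨this.1, fun _ => this.2⟩
  have mG : G ∈ Γ₀ := Finset.mem_insert_self _ _
  have ma₀ : Polynomial.aeval t a₀ ∈ Γ₀ := Finset.mem_insert_of_mem (Finset.mem_insert_self _ _)
  have mp : ∀ i, algebraMap K F (p i) ∈ Γ₀ := fun i => by
    refine Finset.mem_insert_of_mem (Finset.mem_insert_of_mem ?_)
    simp only [Finset.mem_union, Finset.mem_image, Finset.mem_univ, true_and]
    exact Or.inl (Or.inl (Or.inl (Or.inl (Or.inl (Or.inl ⟨i, rfl⟩)))))
  have mq : ∀ i, algebraMap K F (q i) ∈ Γ₀ := fun i => by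
    refine Finset.mem_insert_of_mem (Finset.mem_insert_of_mem ?_)
    simp only [Finset.mem_union, Finset.mem_image, Finset.mem_univ, true_and]
    exact Or.inl (Or.inl (Or.inl (Or.inl (Or.inl (Or.inr ⟨i, rfl⟩)))))
  have mp' : ∀ i, algebraMap K F (p' i) ∈ Γ₀ := fun i => by
    refine Finset.mem_insert_of_mem (Finset.mem_insert_of_mem ?_)
    simp only [Finset.mem_union, Finset.mem_image, Finset.mem_univ, true_and]
    exact Or.inl (Or.inl (Or.inl (Or.inl (Or.inr ⟨i, rfl⟩))))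
  have mq' : ∀ i, algebraMap K F (q' i) ∈ Γ₀ := fun i => by
    refine Finset.mem_insert_of_mem (Finset.mem_insert_of_mem ?_)
    simp only [Finset.mem_union, Finset.mem_image, Finset.mem_univ, true_and]
    exact Or.inl (Or.inl (Or.inl (Or.inr ⟨i, rfl⟩)))
  have mα : ∀ i, algebraMap K F (α i) ∈ Γ₀ := fun i => by
    refine Finset.mem_insert_of_mem (Finset.mem_insert_of_mem ?_)
    simp only [Finset.mem_union, Finset.mem_image, Finset.mem_univ, true_and]
    exact Or.inl (Or.inl (Or.inr ⟨i, rfl⟩))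
  have mΔ : ∀ δ ∈ Δ, algebraMap B F δ ∈ Γ₀ := fun δ hδ => by
    refine Finset.mem_insert_of_mem (Finset.mem_insert_of_mem ?_)
    simp only [Finset.mem_union, Finset.mem_image, Finset.mem_univ, true_and]
    exact Or.inl (Or.inr ⟨δ, hδ, rfl⟩)
  have mg : ∀ Q ∈ hfin.toFinset, algebraMap K F (g Q) ∈ Γ₀ := fun Q hQ => by
    refine Finset.mem_insert_of_mem (Finset.mem_insert_of_mem ?_)
    simp only [Finset.mem_union]
    exact Or.inr (Finset.mem_image.2 ⟨Q, hQ, rfl⟩)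
  have inj : ∀ x : K, x ≠ 0 → algebraMap K F x ≠ 0 := fun x hx => by simpa using hx
  obtain ⟨o1, o1', o2, o3⟩ := hbd L hLn O Φ hOp htO htO' (hmemΓ _ mG).1
    (fun i => (hmemΓ _ (mp i)).1) (fun i => (hmemΓ _ (mq i)).1) (fun i => (hmemΓ _ (mp' i)).1)
    (fun i => (hmemΓ _ (mq' i)).1)
  -- the integer `N''`
  set PT : ℕ := ∏ p ∈ T, p with hPT
  have hPT0 : 0 < PT := Finset.prod_pos fun p hp => (hT p hp).pos
  set N'' : ℕ := N' * PT with hN''
  have hN''0 : 0 < N'' := Nat.mul_pos hN'0 hPT0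
  have hN''T : ∀ ℓ : ℕ, ℓ.Prime → ℓ ∣ N'' → ℓ ∈ T := by
    intro ℓ hℓ hd
    rcases (Nat.Prime.dvd_mul hℓ).1 hd with h | h
    · exact hT0 (Finset.mem_union_right _ (Nat.mem_primeFactors.2 ⟨hℓ, h, hN'0.ne'⟩))
    · obtain ⟨p, hp, hpd⟩ := (Prime.dvd_finsetProd_iff hℓ.prime _).1 h
      rwa [(Nat.prime_dvd_prime_iff_eq hℓ (hT p hp)).1 hpd]
  have hNT : ∀ ℓ : ℕ, ℓ.Prime → ℓ ∣ N → ℓ ∈ T := fun ℓ hℓ hd =>
    hN''T ℓ hℓ (hd.trans ⟨(∏ δ : Δ, N₀ δ) * M₁ * M₂ * PT, by rw [hN'', hN']; ring⟩)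
  have nint_of : ∀ (M' : ℕ) (x : K₁), M' ∣ N'' → IsIntegral ℤ ((M' : K₁) * x) → NInt N'' x := by
    rintro M' x ⟨d, hd⟩ hx
    refine ⟨1, ?_⟩
    have h1 : ((N'' : ℕ) : K₁) ^ 1 * x = (d : K₁) * ((M' : K₁) * x) := by
      rw [hd]; push_cast; ring
    rw [h1]
    have h2 : IsIntegral ℤ (d : K₁) := by
      have := isIntegral_natCast_pow (L := K₁) (N := d) 1
      simpa using this
    exact h2.mul hx
  have nβ : NInt N'' β := nint_of M₁ β
    ⟨N * (∏ δ : Δ, N₀ δ) * M₂ * PT, by rw [hN'', hN']; ring⟩ hM₁β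
  have nβ' : NInt N'' β⁻¹ := nint_of M₂ β⁻¹
    ⟨N * (∏ δ : Δ, N₀ δ) * M₁ * PT, by rw [hN'', hN']; ring⟩ hM₂β
  have nrat : ∀ (x : ℚ) (a : ℤ), (PT : ℚ) ^ j * x = a → NInt N'' ((x : ℚ) : K₁) := by
    intro x a hx
    refine ⟨j, ?_⟩
    have h1 : ((N'' : ℕ) : K₁) ^ j * ((x : ℚ) : K₁) = ((N' : ℕ) : K₁) ^ j * ((a : ℤ) : K₁) := by
      have h2 : ((PT : ℕ) : K₁) ^ j * ((x : ℚ) : K₁) = ((a : ℤ) : K₁) := by
        exact_mod_cast congrArg (fun z : ℚ => (z : K₁)) hx
      rw [← h2, hN'']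
      push_cast
      ring
    rw [h1]
    refine (isIntegral_natCast_pow j).mul ?_
    have := isIntegral_algebraMap (R := ℤ) (A := K₁) (x := a)
    simpa using this
  have nu : NInt N'' (β * (w : K₁)) := nβ.mul (nrat w a hja)
  have nu' : NInt N'' (β * (w : K₁))⁻¹ := by
    rw [mul_inv]
    refine nβ'.mul ?_
    have := nrat w⁻¹ b hjb
    rwa [Rat.cast_inv] at this
  -- the ring homomorphism on `B`
  let φB : B →+* L :=
    { toFun := fun x => ev Φ (algebraMap B F x)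
      map_one' := by
        show ev Φ (algebraMap B F 1) = 1
        rw [map_one]
        exact ev_one Φ
      map_mul' := fun x y => by
        show ev Φ (algebraMap B F (x * y)) = _
        rw [map_mul]
        exact ev_mul Φ (hBO x) (hBO y)
      map_zero' := by
        show ev Φ (algebraMap B F 0) = 0
        rw [map_zero]
        exact ev_zero Φ
      map_add' := fun x y => by
        show ev Φ (algebraMap B F (x + y)) = _
        rw [map_add]
        exact ev_add Φ (hBO x) (hBO y) }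
  have hdiff : ∀ δ : Δ, ∃ j : ℕ, ∃ y ∈ differentIdeal (𝓞 K₁) (𝓞 L),
      (y : L) = (N'' : L) ^ j * ev Φ (algebraMap B F δ) := by
    intro δ
    refine hM2 δ N'' hN''0 ?_ L K₁ φB (β * (w : K₁)) ?_ ?_ hadj nu nu'
    · refine (Finset.dvd_prod_of_mem N₀ (Finset.mem_univ δ)).trans ?_
      exact ⟨N * M₁ * M₂ * PT, by rw [hN'', hN']; ring⟩
    · show ev Φ (algebraMap B F (algebraMap k[T;T⁻¹] B (LaurentPolynomial.T 1))) = _
      rw [hBt]
      exact hΦt
    · intro a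
      refine ⟨ι a, ?_⟩
      show ev Φ (algebraMap B F (algebraMap k[T;T⁻¹] B (LaurentPolynomial.C a))) = _
      rw [hBC]
      exact hΦk a
  -- `t(x)` is a unit outside `T`
  have nL : ∀ x : K₁, NInt N'' x → NInt N'' (algebraMap K₁ L x) := by
    rintro x ⟨i, hi⟩
    refine ⟨i, ?_⟩
    have := hi.map (algebraMap K₁ L).toIntAlgHom
    have e : (algebraMap K₁ L).toIntAlgHom ((N'' : K₁) ^ i * x) =
        ((N'' : ℕ) : L) ^ i * algebraMap K₁ L x := by
      show algebraMap K₁ L ((N'' : K₁) ^ i * x) = _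
      rw [map_mul, map_pow, map_natCast]
    rwa [e] at this
  have hunit : ∀ w' : FinitePlace L, w' ∉ aboveT L T → w' (ev Φ t) = 1 := by
    intro w' hw'
    have hN1 : w' ((N'' : ℕ) : L) = 1 := place_nat hw' hN''0.ne' hN''T
    have h1 := place_nint hN1 (nL _ nu)
    have h2 := place_nint hN1 (nL _ nu')
    rw [map_inv₀, map_inv₀] at h2
    have hne : algebraMap K₁ L (β * (w : K₁)) ≠ 0 := by
      rw [Ne, map_eq_zero]
      exact mul_ne_zero hβ (by exact_mod_cast hw0.ne')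
    rw [hΦt]
    refine le_antisymm h1 ?_
    have h3 : 0 < w' (algebraMap K₁ L (β * (w : K₁))) := FinitePlace.pos_iff.2 hne
    exact (inv_le_one₀ h3).1 h2
  -- tuples over `L`
  set pL : Fin n₁ → L := fun i => ev Φ (algebraMap K F (p i)) with hpL
  set qL : Fin n₂ → L := fun i => ev Φ (algebraMap K F (q i)) with hqL
  set pL' : Fin n₃ → L := fun i => ev Φ (algebraMap K F (p' i)) with hpL'
  set qL' : Fin n₄ → L := fun i => ev Φ (algebraMap K F (q' i)) with hqL'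
  set δL : Fin Δ.card → L := fun i => ev Φ (algebraMap B F (Δ.equivFin.symm i)) with hδL
  -- nonvanishing
  obtain ⟨z, hz⟩ : ∃ z : K, ∃ Q : ValuationSubring K, IsPlace k Q ∧ Unif Q z := by
    obtain ⟨O', hO', h1, h2, -⟩ := hH
    have : Algebra.IsIntegral K F := inferInstance
    obtain ⟨z, hz⟩ := (hC.2 O' hO').2 h1 h2
    exact ⟨z, _, isPlace_comap hO', unif_comap hz⟩
  obtain ⟨Q₀, hQ₀, hQz⟩ := hz
  have hnz : (∃ i, p i ≠ 0) ∧ (∃ i, q i ≠ 0) ∧ (∃ i, p' i ≠ 0) ∧ (∃ i, q' i ≠ 0) := by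
    obtain ⟨i, j, hi, hj, -⟩ := hpq Q₀ hQ₀ z hQz
    refine ⟨⟨i, hi.1⟩, ⟨j, hj.1⟩, ?_⟩
    by_cases hQD : Q₀ ∈ 𝒟
    · obtain ⟨i, j, hi, hj, -⟩ := (hpq' Q₀ hQ₀).1 hQD z hQz
      exact ⟨⟨i, hi.1⟩, ⟨j, hj.1⟩⟩
    · obtain ⟨i, j, hi, hj, -⟩ := (hpq' Q₀ hQ₀).2 hQD
      exact ⟨⟨i, hi.1⟩, ⟨j, hj.1⟩⟩
  have hpnz : ∃ i, pL i ≠ 0 := by
    obtain ⟨i, hi⟩ := hnz.1
    exact ⟨i, (hmemΓ _ (mp i)).2 (inj _ hi)⟩
  have hqnz : ∃ i, qL i ≠ 0 := by
    obtain ⟨i, hi⟩ := hnz.2.1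
    exact ⟨i, (hmemΓ _ (mq i)).2 (inj _ hi)⟩
  have hpnz' : ∃ i, pL' i ≠ 0 := by
    obtain ⟨i, hi⟩ := hnz.2.2.1
    exact ⟨i, (hmemΓ _ (mp' i)).2 (inj _ hi)⟩
  have hqnz' : ∃ i, qL' i ≠ 0 := by
    obtain ⟨i, hi⟩ := hnz.2.2.2
    exact ⟨i, (hmemΓ _ (mq' i)).2 (inj _ hi)⟩
  have hδnz : ∃ i, δL i ≠ 0 := by
    refine ⟨Δ.equivFin ⟨δ₀, hδ₀⟩, ?_⟩
    show ev Φ (algebraMap B F (Δ.equivFin.symm (Δ.equivFin ⟨δ₀, hδ₀⟩))) ≠ 0
    rw [Equiv.symm_apply_apply]
    refine (hmemΓ _ (mΔ δ₀ hδ₀)).2 ?_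
    rw [Ne, IsFractionRing.to_map_eq_zero_iff (K := F)]
    exact hδ₀'
  -- the small quantity `E`
  set E : ℝ := A * |(w : ℝ) - 1| ^ c with hE
  have hE0 : 0 < E := mul_pos hA (Real.rpow_pos_of_pos hwpos c)
  have hE1 : E ≤ 1 := by
    have h1 : |(w : ℝ) - 1| ^ c ≤ ((A⁻¹) ^ (1 / c)) ^ c :=
      Real.rpow_le_rpow hwpos.le (hwε.le.trans hεA) hc.le
    rw [← Real.rpow_mul (inv_nonneg.2 hA.le), one_div_mul_cancel hc.ne', Real.rpow_one] at h1
    calc A * |(w : ℝ) - 1| ^ c ≤ A * A⁻¹ := mul_le_mul_of_nonneg_left h1 hA.le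
      _ = 1 := mul_inv_cancel₀ hA.ne'
  -- the special place
  have hw2 : (w : ℝ) ≤ 2 ∧ (w : ℝ)⁻¹ ≤ 2 := by
    have h1 := abs_lt.1 (hwε.trans_le hε2)
    refine ⟨by linarith, ?_⟩
    rw [inv_le_comm₀ (by exact_mod_cast hw0) (by norm_num)]
    linarith
  have hvt : v (ev Φ t) ≤ 2 * R₁ ∧ (v (ev Φ t))⁻¹ ≤ 2 * R₁ := by
    have hw0' : (0 : ℝ) < w := by exact_mod_cast hw0
    have e1 : v (ev Φ t) = (v.comap (algebraMap K₁ L)) β * w := by
      rw [hΦt, map_mul, map_mul, InfinitePlace.comap_apply]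
      congr 1
      have e2 : algebraMap K₁ L ((w : ℚ) : K₁) = ((w : ℚ) : L) := map_ratCast _ _
      rw [e2, ← InfinitePlace.norm_embedding_eq, map_ratCast, Complex.norm_ratCast]
      exact abs_of_pos hw0'
    have hσ0 : 0 < (v.comap (algebraMap K₁ L)) β := InfinitePlace.pos_iff.2 hβ
    have hle : (v.comap (algebraMap K₁ L)) β + ((v.comap (algebraMap K₁ L)) β)⁻¹ ≤ R₁ :=
      Finset.single_le_sum (f := fun σ : InfinitePlace K₁ => σ β + (σ β)⁻¹)
        (fun σ _ => by positivity) (Finset.mem_univ (v.comap (algebraMap K₁ L)))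
    have hσi : 0 < ((v.comap (algebraMap K₁ L)) β)⁻¹ := inv_pos.2 hσ0
    rw [e1, mul_inv]
    refine ⟨?_, ?_⟩
    · nlinarith [hw2.1]
    · nlinarith [hw2.2]
  have hSsup : (⨆ s : S, v (ev Φ (algebraMap B F s))) ≤ E := by
    have : Nonempty S := ⟨⟨s₀, hs₀⟩⟩
    exact ciSup_le fun s => hS s s.2
  have sup_nonneg : ∀ {n : ℕ} (x : Fin n → L) (w' : InfinitePlace L), 0 ≤ sup' x (fun y => w' y) :=
    fun x w' => Real.iSup_nonneg fun i => apply_nonneg w' _
  have hδsup : ∀ w' : FinitePlace L, (⨆ δ : Δ, w' (ev Φ (algebraMap B F δ))) =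
      sup' δL (fun y => w' y) := by
    intro w'
    exact (Equiv.iSup_comp (g := fun δ : Δ => w' (ev Φ (algebraMap B F δ))) Δ.equivFin.symm).symm
  -- the inequality over `L`
  have hlev := level (K₁ := K₁) T n₀ κ hLn (hκ L hLn) A₂
    (fun ρ hρ h => hA₂ K₁ L hLn le_rfl ρ hρ h) N'' hN''0.ne' hN''T pL qL pL' qL' δL
    hpnz hqnz hpnz' hqnz' hδnz (ev Φ G) ((hmemΓ _ mG).2 hG0) H E hH1 hE0 hE1 o1 o1'
    (by
      intro w' hw'
      have h := o2 w' (place_nat hw' hN.ne' hNT) (hunit w' hw')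
      rw [hδsup w'] at h
      exact h) v
    (by
      have h := o3 v hvt.1 (by rw [map_inv₀]; exact hvt.2)
      refine h.trans (mul_le_mul_of_nonneg_left ?_ (by linarith))
      exact mul_le_mul_of_nonneg_left hSsup (mul_nonneg (sup_nonneg qL v) (sup_nonneg qL' v)))
    (fun i => hdiff (Δ.equivFin.symm i))
  -- the residue field of the point of `X`
  obtain ⟨L', jL1, jL2, jL3, jL4, φ, hφs, hφk, hφe⟩ := residue (k := k) (K := K) O hOp Φ
  set d : ℝ := ((Module.finrank L' L : ℕ) : ℝ) with hd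
  set e : ℝ := ((Module.finrank k L' : ℕ) : ℝ) with he
  have hd1 : 1 ≤ d := by
    have : 0 < Module.finrank L' L := Module.finrank_pos
    rw [hd]
    exact_mod_cast this
  have hkL : FiniteDimensional k L' := inferInstance
  have he1 : 1 ≤ e := by
    have : 0 < Module.finrank k L' := Module.finrank_pos
    rw [he]
    exact_mod_cast this
  have hdegs : Module.finrank L' L * Module.finrank k L' ≤ n₀ := by
    have h1 := Module.finrank_mul_finrank ℚ L' L
    have h2 := Module.finrank_mul_finrank ℚ k L'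
    have h3 : 0 < Module.finrank ℚ k := Module.finrank_pos
    have h4 : Module.finrank k L' ≤ Module.finrank ℚ L' := by
      rw [← h2]
      exact Nat.le_mul_of_pos_left _ h3
    calc Module.finrank L' L * Module.finrank k L' ≤ Module.finrank L' L * Module.finrank ℚ L' :=
          Nat.mul_le_mul_left _ h4
      _ = Module.finrank ℚ L := by rw [← h1, mul_comm]
      _ ≤ n₀ := hLn
  have hde : d * e ≤ (n₀ : ℝ) + 1 := by
    have : d * e ≤ n₀ := by
      rw [hd, he]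
      exact_mod_cast hdegs
    linarith
  have heL : Module.finrank k L' ≤ n₀ := by
    have : 0 < Module.finrank L' L := Module.finrank_pos
    exact (Nat.le_mul_of_pos_left _ this).trans hdegs
  -- transfer to `L'`
  have tr : ∀ {n : ℕ} (x : Fin n → K), (fun i => ev Φ (algebraMap K F (x i))) =
      fun i => algebraMap L' L (ev φ (x i)) := fun x => funext fun i => (hφe (x i)).symm
  have nz' : ∀ {n : ℕ} (x : Fin n → K), (∃ i, ev Φ (algebraMap K F (x i)) ≠ 0) →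
      ∃ i, ev φ (x i) ≠ 0 := by
    rintro n x ⟨i, hi⟩
    refine ⟨i, fun h0 => hi ?_⟩
    rw [← hφe, h0, map_zero]
  have i1 := (inv_weil (L := L) hINV (fun i => ev φ (q i)) (fun i => ev φ (p i))
    (nz' q hqnz) (nz' p hpnz)).1
  have i2 := (inv_weil (L := L) hINV (fun i => ev φ (q' i)) (fun i => ev φ (p' i))
    (nz' q' hqnz') (nz' p' hpnz')).2 T hT
  rw [← tr q, ← tr p] at i1
  rw [← tr q', ← tr p'] at i2
  have i3 := stM3b L' L
  have hK : placeSum L' (weil p q φ) = placeSum L' (fun a => Real.log (sup' (fun i => ev φ (q i)) a) -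
      Real.log (sup' (fun i => ev φ (p i)) a)) := rfl
  have hDD : placeSumS L' T (weil p' q' φ) = placeSumS L' T
      (fun a => Real.log (sup' (fun i => ev φ (q' i)) a) -
        Real.log (sup' (fun i => ev φ (p' i)) a)) := rfl
  -- heights
  have hht : Real.posLog (Height.logHeight (fun i => ev φ (α i)) / e) ≤ Lh + C₇ := by
    have h1 : Height.logHeight (fun i => ev Φ (algebraMap K F (α i))) =
        d * Height.logHeight (fun i => ev φ (α i)) := by
      rw [tr α]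
      exact inv_height hINV _
    have h0 : 0 ≤ Height.logHeight (fun i => ev φ (α i)) := Height.logHeight_nonneg _
    have h2 : Height.logHeight (fun i => ev φ (α i)) / e ≤
        Height.logHeight (fun i => ev Φ (algebraMap K F (α i))) := by
      rw [h1]
      calc Height.logHeight (fun i => ev φ (α i)) / e ≤ Height.logHeight (fun i => ev φ (α i)) :=
            div_le_self h0 he1
        _ ≤ d * Height.logHeight (fun i => ev φ (α i)) := le_mul_of_one_le_left h0 hd1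
    have ht0 : Polynomial.aeval t a₀ ≠ 0 := fun h => ha₀ ((transcendental_iff.1 hC.1) a₀ h)
    have h3 := hO4' L hLn O Φ hOp htO (fun i => (hmemΓ _ (mα i)).1) ((hmemΓ _ ma₀).2 ht0)
    have h4 : Height.logHeight₁ (ev Φ t) ≤ n₀ * (Height.logHeight₁ β + Height.logHeight₁ w) := by
      have a1 : Height.logHeight₁ (ev Φ t) =
          Module.finrank K₁ L * Height.logHeight₁ (β * (w : K₁)) := by
        rw [hΦt]
        exact inv_height₁ hINV _
      have a2 : Height.logHeight₁ (β * (w : K₁)) ≤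
          Height.logHeight₁ β + Height.logHeight₁ (w : K₁) := Height.logHeight₁_mul_le _ _
      have a3 : Height.logHeight₁ ((w : ℚ) : K₁) = Module.finrank ℚ K₁ * Height.logHeight₁ w := by
        have := inv_height₁ (L' := ℚ) (L := K₁) hINV w
        rwa [eq_ratCast] at this
      have a4 : (Module.finrank K₁ L : ℝ) * Module.finrank ℚ K₁ ≤ n₀ := by
        have := Module.finrank_mul_finrank ℚ K₁ L
        have h5 : Module.finrank K₁ L * Module.finrank ℚ K₁ ≤ n₀ := by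
          rw [mul_comm, this]
          exact hLn
        exact_mod_cast h5
      have a5 : (Module.finrank K₁ L : ℝ) ≤ n₀ := by
        have h5 : (1 : ℝ) ≤ Module.finrank ℚ K₁ := by
          have : 0 < Module.finrank ℚ K₁ := Module.finrank_pos
          exact_mod_cast this
        have h6 : (0 : ℝ) ≤ Module.finrank K₁ L := Nat.cast_nonneg _
        nlinarith
      have b1 := Height.zero_le_logHeight₁ β
      have b2 := Height.zero_le_logHeight₁ w
      rw [a1]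
      calc (Module.finrank K₁ L : ℝ) * Height.logHeight₁ (β * (w : K₁))
          ≤ Module.finrank K₁ L * (Height.logHeight₁ β + Module.finrank ℚ K₁ *
              Height.logHeight₁ w) := by
            rw [← a3]
            exact mul_le_mul_of_nonneg_left a2 (Nat.cast_nonneg _)
        _ = Module.finrank K₁ L * Height.logHeight₁ β +
              (Module.finrank K₁ L * Module.finrank ℚ K₁) * Height.logHeight₁ w := by ring
        _ ≤ n₀ * Height.logHeight₁ β + n₀ * Height.logHeight₁ w :=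
            add_le_add (mul_le_mul_of_nonneg_right a5 b1) (mul_le_mul_of_nonneg_right a4 b2)
        _ = _ := by ring
    have h5 : Height.logHeight (fun i => ev φ (α i)) / e ≤
        |A₄| * (1 + n₀ * (Height.logHeight₁ β + Height.logHeight₁ w)) := by
      refine h2.trans (h3.trans ?_)
      have b0 := Height.zero_le_logHeight₁ (ev Φ t)
      calc A₄ * (1 + Height.logHeight₁ (ev Φ t)) ≤ |A₄| * (1 + Height.logHeight₁ (ev Φ t)) :=
            mul_le_mul_of_nonneg_right (le_abs_self _) (by linarith)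
        _ ≤ _ := mul_le_mul_of_nonneg_left (by linarith) (abs_nonneg _)
    exact (Real.posLog_le_posLog (div_nonneg h0 (by linarith)) h5).trans
      (hC₇ _ (Height.zero_le_logHeight₁ w))
  -- the final inequality
  have hmain : C * Real.posLog (Height.logHeight (fun i => ev φ (α i)) / e) +
      Real.log |(discr L' : ℝ)| / e + M ≤
      placeSum L' (weil p q φ) / e + placeSumS L' T (weil p' q' φ) / e := by
    have hlogE : Real.log E = Real.log A + c * Real.log |(w : ℝ) - 1| := by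
      rw [hE, Real.log_mul hA.ne' (Real.rpow_pos_of_pos hwpos c).ne', Real.log_rpow hwpos]
    refine numeric c ((T.card : ℝ) - 1) ((n₀ : ℝ) + 1) C M Kc C₇ Lh
      (- Real.log E - (n₀ + κ) * Real.log H - A₂) d e _ _ (Real.log |(discr L : ℝ)|) _ _ hn₁ hd1 he1
      hde ?_ i3 ?_ ?_ Real.posLog_nonneg hht ?_
    · rw [hK, hDD, ← i1, ← i2]
      exact hlev
    · rw [hlogE, hKc]
      nlinarith [mul_le_mul_of_nonneg_left hwM hc.le]
    · have h1 : |Kc| / (c * ((T.card : ℝ) - 1)) ≤ Lh := (le_max_right _ _).trans hLh1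
      rw [div_le_iff₀ (mul_pos hc hT1)] at h1
      linarith
    · have h1 : (max C 0 * C₇ + |M| + |Kc|) /
          (c / ((n₀ : ℝ) + 1) * ((T.card : ℝ) - 1) - max C 0) ≤ Lh := (le_max_left _ _).trans hLh1
      rw [div_le_iff₀ hη] at h1
      linarith
  -- the point is in the finite set: contradiction
  have hPl : IsPlace k (O.comap (algebraMap K F)) := isPlace_comap hOp
  have hmem : O.comap (algebraMap K F) ∈ hfin.toFinset := by
    rw [Set.Finite.mem_toFinset]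
    refine ⟨hPl, L', jL1, jL2, jL4, φ, hφs, hφk, heL, ⟨fun i => (hmemΓ _ (mp i)).1, nz' p hpnz⟩,
      ⟨fun i => (hmemΓ _ (mq i)).1, nz' q hqnz⟩, ⟨fun i => (hmemΓ _ (mp' i)).1, nz' p' hpnz'⟩,
      ⟨fun i => (hmemΓ _ (mq' i)).1, nz' q' hqnz'⟩, fun i => (hmemΓ _ (mα i)).1, ?_⟩
    exact hmain
  obtain ⟨g0, g1, g2⟩ := hg _ hPl
  have hgΓ := hmemΓ _ (mg _ hmem)
  apply g2
  show algebraMap K F _ ∈ O
  rw [map_inv₀]
  exact inv_mem_of_ev hOp Φ hgΓ.1 (hgΓ.2 (inj _ g0))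

end KS6_16.VJ
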